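import Pool.Agent.Y658.CE.Basic

/-!
# The functions of the circle and ellipse problem

`W = 1 + e cos θ`, `g = k cos θ + l sin θ` (component along the normal of the plane of the circle of
the unit vector with true anomaly `θ`), `g1 = g'`, `G = 1 - g²`.  The stationary points are the
solutions of `H = ± const`; `H' = - N / (sin² G^(3/2))`, `(N / sin³)' = 3 G J / sin⁴`,
`J' = 5 e sin³ g g'`.
-/

set_option autoImplicit false

namespace Pool.Agent.Y658.CE

open Real Set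

noncomputable section

/-- `1 + e cos θ` -/
def W (e θ : ℝ) : ℝ := 1 + e * cos θ

/-- `k cos θ + l sin θ` -/
def g (k l θ : ℝ) : ℝ := k * cos θ + l * sin θ

/-- derivative of `g` -/
def g1 (k l θ : ℝ) : ℝ := -k * sin θ + l * cos θ

/-- `1 - g²` -/
def G (k l θ : ℝ) : ℝ := 1 - g k l θ ^ 2

/-- the numerator of `H` -/
def A (e k l θ : ℝ) : ℝ := e * W e θ * sin θ * G k l θ - W e θ ^ 2 * g k l θ * g1 k l θ

/-- minus the numerator of `H'` -/
def N (e k l θ : ℝ) : ℝ :=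
  sin θ * ((e * sin θ * G k l θ) ^ 2 - (e * sin θ * G k l θ) * (W e θ * g k l θ * g1 k l θ)
      + (W e θ * g k l θ * g1 k l θ) ^ 2)
    + W e θ ^ 2 * G k l θ * (g1 k l θ ^ 2 * sin θ - l * g k l θ)

/-- the function governing the sign of `N'` at the zeros of `N` -/
def J (e k l θ : ℝ) : ℝ :=
  (g k l θ * g1 k l θ * cos θ + (g k l θ ^ 2 - g1 k l θ ^ 2) * sin θ) * W e θ * (e + cos θ)
    - g k l θ * g1 k l θ * (1 + 2 * e * cos θ + e ^ 2) * sin θ ^ 2

/-- `H = A / (sin θ √G)` -/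
def H (e k l θ : ℝ) : ℝ := A e k l θ / (sin θ * √(G k l θ))

end

lemma g_sq_add (k l θ : ℝ) : g k l θ ^ 2 + g1 k l θ ^ 2 = k ^ 2 + l ^ 2 := by
  unfold g g1
  linear_combination (k ^ 2 + l ^ 2) * Real.sin_sq_add_cos_sq θ

lemma l_eq (k l θ : ℝ) : g k l θ * sin θ + g1 k l θ * cos θ = l := by
  unfold g g1
  linear_combination l * Real.sin_sq_add_cos_sq θ

lemma k_eq (k l θ : ℝ) : g k l θ * cos θ - g1 k l θ * sin θ = k := by
  unfold g g1
  linear_combination k * Real.sin_sq_add_cos_sq θ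

lemma hd_W (e θ : ℝ) : HasDerivAt (W e) (-(e * sin θ)) θ := by
  have := ((Real.hasDerivAt_cos θ).const_mul e).const_add 1
  convert! this using 1
  ring

lemma hd_g (k l θ : ℝ) : HasDerivAt (g k l) (g1 k l θ) θ := by
  have := ((Real.hasDerivAt_cos θ).const_mul k).add ((Real.hasDerivAt_sin θ).const_mul l)
  convert! this using 1
  unfold g1
  ring

lemma hd_g1 (k l θ : ℝ) : HasDerivAt (g1 k l) (-g k l θ) θ := by
  have := ((Real.hasDerivAt_sin θ).const_mul (-k)).add ((Real.hasDerivAt_cos θ).const_mul l)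
  convert! this using 1
  unfold g
  ring

lemma hd_G (k l θ : ℝ) : HasDerivAt (G k l) (-(2 * g k l θ * g1 k l θ)) θ := by
  have := ((hd_g k l θ).pow 2).const_sub 1
  convert! this using 1
  simp

lemma hd_A (e k l θ : ℝ) : HasDerivAt (A e k l)
    (e * (-(e * sin θ)) * sin θ * G k l θ + e * W e θ * cos θ * G k l θ
      + e * W e θ * sin θ * (-(2 * g k l θ * g1 k l θ))
      - (2 * W e θ * (-(e * sin θ)) * g k l θ * g1 k l θ + W e θ ^ 2 * g1 k l θ * g1 k l θ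
        - W e θ ^ 2 * g k l θ * g k l θ)) θ := by
  have h1 := ((((hd_W e θ).const_mul e).mul (Real.hasDerivAt_sin θ)).mul (hd_G k l θ)).sub
    ((((hd_W e θ).pow 2).mul (hd_g k l θ)).mul (hd_g1 k l θ))
  convert! h1 using 1
  simp only [Nat.cast_ofNat, Pi.pow_apply, Pi.mul_apply]
  ring

/-- `s N' = 3 c N + 3 G J` -/
lemma hd_N (e k l : ℝ) {θ : ℝ} (hs : sin θ ≠ 0) : HasDerivAt (N e k l)
    (3 * (cos θ * N e k l θ + G k l θ * J e k l θ) / sin θ) θ := by
  have hS := Real.hasDerivAt_sin θ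
  have hC := Real.hasDerivAt_cos θ
  have ha := (hS.const_mul e).mul (hd_G k l θ)
  have hb := ((hd_W e θ).mul (hd_g k l θ)).mul (hd_g1 k l θ)
  have h1 := (hS.mul (((ha.pow 2).sub (ha.mul hb)).add (hb.pow 2))).add
    ((((hd_W e θ).pow 2).mul (hd_G k l θ)).mul
      ((((hd_g1 k l θ).pow 2).mul hS).sub ((hd_g k l θ).const_mul l)))
  convert! h1 using 1
  rw [div_eq_iff hs]
  simp only [Nat.cast_ofNat, Pi.pow_apply, Pi.mul_apply, Pi.sub_apply, Pi.add_apply]
  have hl := l_eq k l θ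
  have h2 := Real.sin_sq_add_cos_sq θ
  unfold N J G
  rw [← hl]
  rw [hl]
  generalize hg : g k l θ = g at *
  generalize hh : g1 k l θ = h at *
  rw [← hl]
  unfold W
  generalize hsd : sin θ = s at *
  generalize hcd : cos θ = c at *
  linear_combination (-(3 * c * e ^ 2 * g ^ 2 * h ^ 2 * s - 3 * c * e ^ 2 * g ^ 4 * s - 3 * c ^ 2 * e ^ 2 * g ^ 3 * h + 3 * e ^ 2 * g ^ 3 * h * s ^ 2 - 3 * c * e * g ^ 3 * h + 3 * c * e ^ 2 * g ^ 2 * s - 3 * c * e ^ 2 * h ^ 2 * s + 3 * c ^ 2 * e ^ 2 * g * h + 3 * e * g ^ 2 * h ^ 2 * s - 3 * e * g ^ 4 * s - 3 * e ^ 2 * g * h * s ^ 2 + 3 * c * e * g * h + 3 * e * g ^ 2 * s - 3 * e * h ^ 2 * s)) * h2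

lemma hd_J (e k l θ : ℝ) : HasDerivAt (J e k l)
    (5 * e * sin θ ^ 3 * g k l θ * g1 k l θ) θ := by
  have hS := Real.hasDerivAt_sin θ
  have hC := Real.hasDerivAt_cos θ
  have hg := hd_g k l θ
  have hg1 := hd_g1 k l θ
  have h1 := (((((hg.mul hg1).mul hC).add (((hg.pow 2).sub (hg1.pow 2)).mul hS)).mul
    (hd_W e θ)).mul (hC.const_add e)).sub
    (((hg.mul hg1).mul (((hC.const_mul (2 * e)).const_add 1).add_const (e ^ 2))).mul (hS.pow 2))
  convert! h1 using 1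
  simp only [Nat.cast_ofNat, Pi.pow_apply, Pi.mul_apply, Pi.sub_apply, Pi.add_apply]
  have h2 := Real.sin_sq_add_cos_sq θ
  generalize hg : g k l θ = g at *
  generalize hh : g1 k l θ = h at *
  unfold W
  generalize hsd : sin θ = s at *
  generalize hcd : cos θ = c at *
  linear_combination (3 * e * g * h * s) * h2

/-- `W G J = W³ G k l + e s³ (e s G - W g g')² - e s² N` -/
lemma id_WGJ (e k l θ : ℝ) : W e θ * G k l θ * J e k l θ
    = W e θ ^ 3 * G k l θ * (k * l)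
      + e * sin θ ^ 3 * (e * sin θ * G k l θ - W e θ * g k l θ * g1 k l θ) ^ 2
      - e * sin θ ^ 2 * N e k l θ := by
  have hl := l_eq k l θ
  have hk := k_eq k l θ
  have h2 := Real.sin_sq_add_cos_sq θ
  unfold N J G
  generalize hg : g k l θ = g at *
  generalize hh : g1 k l θ = h at *
  rw [← hl, ← hk]
  unfold W
  generalize hsd : sin θ = s at *
  generalize hcd : cos θ = c at *
  linear_combination (-c * e ^ 3 * g ^ 3 * h * s ^ 2 - c ^ 2 * e ^ 3 * g ^ 2 * h ^ 2 * s + c ^ 2 * e ^ 3 * g ^ 4 * s + c ^ 3 * e ^ 3 * g ^ 3 * h - 2 * c * e ^ 2 * g ^ 2 * h ^ 2 * s + 2 * c * e ^ 2 * g ^ 4 * s + c * e ^ 3 * g * h * s ^ 2 + 2 * c ^ 2 * e ^ 2 * g ^ 3 * h - c ^ 2 * e ^ 3 * g ^ 2 * s + c ^ 2 * e ^ 3 * h ^ 2 * s - c ^ 3 * e ^ 3 * g * h - e ^ 2 * g ^ 3 * h * s ^ 2 + c * e * g ^ 3 * h - 2 * c * e ^ 2 * g ^ 2 * s + 2 * c * e ^ 2 * h ^ 2 * s - 2 * c ^ 2 * e ^ 2 * g * h - e * g ^ 2 * h ^ 2 * s + e * g ^ 4 * s + e ^ 2 * g *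 h * s ^ 2 - c * e * g * h - e * g ^ 2 * s + e * h ^ 2 * s) * h2

lemma key_H (e k l θ : ℝ) :
    (e * (-(e * sin θ)) * sin θ * G k l θ + e * W e θ * cos θ * G k l θ
      + e * W e θ * sin θ * (-(2 * g k l θ * g1 k l θ))
      - (2 * W e θ * (-(e * sin θ)) * g k l θ * g1 k l θ + W e θ ^ 2 * g1 k l θ * g1 k l θ
        - W e θ ^ 2 * g k l θ * g k l θ)) * sin θ * G k l θ
      - A e k l θ * (cos θ * G k l θ - sin θ * g k l θ * g1 k l θ) = - N e k l θ := by
  have hl := l_eq k l θ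
  unfold N A G
  generalize hg : g k l θ = g at *
  generalize hh : g1 k l θ = h at *
  rw [← hl]
  unfold W
  generalize hsd : sin θ = s at *
  generalize hcd : cos θ = c at *
  ring

lemma hd_H (e k l : ℝ) {θ : ℝ} (hs : sin θ ≠ 0) (hG : 0 < G k l θ) : HasDerivAt (H e k l)
    (-(1 / (sin θ ^ 2 * √(G k l θ) ^ 3) * N e k l θ)) θ := by
  have hS := Real.hasDerivAt_sin θ
  have hsq := (hd_G k l θ).sqrt hG.ne'
  have h1 := (hd_A e k l θ).div (hS.mul hsq) (by
    simp only [Pi.mul_apply]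
    exact mul_ne_zero hs (Real.sqrt_pos.mpr hG).ne')
  convert! h1 using 1
  simp only [Pi.mul_apply]
  have hD : 0 < √(G k l θ) := Real.sqrt_pos.mpr hG
  have hDD : √(G k l θ) ^ 2 = G k l θ := Real.sq_sqrt hG.le
  have key := key_H e k l θ
  generalize (e * (-(e * sin θ)) * sin θ * G k l θ + e * W e θ * cos θ * G k l θ
      + e * W e θ * sin θ * (-(2 * g k l θ * g1 k l θ))
      - (2 * W e θ * (-(e * sin θ)) * g k l θ * g1 k l θ + W e θ ^ 2 * g1 k l θ * g1 k l θ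
        - W e θ ^ 2 * g k l θ * g k l θ)) = A' at *
  generalize N e k l θ = N at *
  generalize A e k l θ = A at *
  generalize √(G k l θ) = D at *
  rw [← hDD] at key
  field_simp
  linear_combination (-1 : ℝ) * key

end Pool.Agent.Y658.CE
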