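import Mathlib

/-!
# Sign changes and number of solutions
-/

set_option autoImplicit false

namespace Pool.Agent.Y658.CE

open Set Filter Topology

/-- A set of reals without an increasing sequence of `n + 1` elements has at most `n` elements. -/
lemma encard_le_of_no_chain {S : Set ℝ} {n : ℕ}
    (h : ∀ f : Fin (n + 1) → ℝ, StrictMono f → (∀ i, f i ∈ S) → False) : S.encard ≤ n := by
  by_contra hc
  push Not at hc
  have h1 : ((n + 1 : ℕ) : ℕ∞) ≤ S.encard := by
    have := Order.add_one_le_of_lt hc
    exact_mod_cast this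
  obtain ⟨t, htS, ht⟩ := Set.exists_subset_encard_eq h1
  have hfin : t.Finite := Set.finite_of_encard_eq_coe ht
  have hcard : hfin.toFinset.card = n + 1 := by
    have := hfin.encard_eq_coe_toFinset_card
    rw [ht] at this
    exact_mod_cast this.symm
  refine h (hfin.toFinset.orderEmbOfFin hcard) (OrderEmbedding.strictMono _) fun i => ?_
  have := Finset.orderEmbOfFin_mem hfin.toFinset hcard i
  exact htS (hfin.mem_toFinset.mp this)

/-- Upward crossing. -/
lemma cross_up {f f' : ℝ → ℝ} {y z : ℝ} (hyz : y < z)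
    (hf : ∀ x ∈ Icc y z, HasDerivAt f (f' x) x) (hy : f y < 0) (hz : 0 < f z) :
    ∃ x ∈ Ioo y z, f x = 0 ∧ 0 ≤ f' x := by
  set S := {u ∈ Icc y z | f u ≤ 0} with hS
  have hc : ContinuousOn f (Icc y z) := fun x hx => (hf x hx).continuousAt.continuousWithinAt
  have hScl : IsClosed S := by
    have := hc.preimage_isClosed_of_isClosed isClosed_Icc (isClosed_Iic (a := (0 : ℝ)))
    exact this
  have hSne : S.Nonempty := ⟨y, ⟨le_refl _, hyz.le⟩, hy.le⟩
  have hSbdd : BddAbove S := ⟨z, fun u hu => hu.1.2⟩
  set x := sSup S with hx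
  have hxS : x ∈ S := hScl.csSup_mem hSne hSbdd
  have hxz : x ≠ z := fun h => by
    have := hxS.2
    rw [h] at this
    linarith
  have hxz' : x < z := lt_of_le_of_ne hxS.1.2 hxz
  have hpos : ∀ u ∈ Ioc x z, 0 < f u := by
    intro u hu
    by_contra hle
    push Not at hle
    have : u ∈ S := ⟨⟨hxS.1.1.trans hu.1.le, hu.2⟩, hle⟩
    have := le_csSup hSbdd this
    linarith [hu.1]
  have hfx : f x = 0 := by
    refine le_antisymm hxS.2 ?_
    have h1 : Tendsto f (𝓝[>] x) (𝓝 (f x)) := (hf x hxS.1).continuousAt.tendsto.mono_left nhdsWithin_le_nhds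
    refine ge_of_tendsto h1 ?_
    filter_upwards [Ioo_mem_nhdsGT hxz'] with u hu
    exact (hpos u ⟨hu.1, hu.2.le⟩).le
  have hyx : y < x := by
    rcases hxS.1.1.eq_or_lt with h | h
    · rw [← h] at hfx; linarith
    · exact h
  refine ⟨x, ⟨hyx, hxz'⟩, hfx, ?_⟩
  -- derivative is nonnegative
  have hd := (hf x hxS.1)
  have h2 : Tendsto (slope f x) (𝓝[>] x) (𝓝 (f' x)) :=
    (hasDerivAt_iff_tendsto_slope.mp hd).mono_left (nhdsWithin_mono _ fun u hu => ne_of_gt hu)
  refine ge_of_tendsto h2 ?_
  filter_upwards [Ioo_mem_nhdsGT hxz'] with u hu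
  rw [slope_def_field, hfx, sub_zero]
  exact div_nonneg (hpos u ⟨hu.1, hu.2.le⟩).le (by linarith [hu.1])

/-- Downward crossing. -/
lemma cross_down {f f' : ℝ → ℝ} {y z : ℝ} (hyz : y < z)
    (hf : ∀ x ∈ Icc y z, HasDerivAt f (f' x) x) (hy : 0 < f y) (hz : f z < 0) :
    ∃ x ∈ Ioo y z, f x = 0 ∧ f' x ≤ 0 := by
  obtain ⟨x, hx, h1, h2⟩ := cross_up (f := fun u => -f u) (f' := fun u => -f' u) hyz
    (fun x hx => (hf x hx).neg) (by simpa using hy) (by simpa using hz)
  exact ⟨x, hx, by simpa using h1, by simpa using h2⟩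

/-- Between two points with the same value there are points with both signs of the derivative. -/
lemma gap {h T P : ℝ → ℝ} {x y : ℝ} (hxy : x < y)
    (hd : ∀ z ∈ Icc x y, HasDerivAt h (-(P z * T z)) z) (hP : ∀ z ∈ Icc x y, 0 < P z)
    (he : h x = h y) (hT : ¬ ∀ z ∈ Ioo x y, T z = 0) :
    (∃ z ∈ Ioo x y, T z < 0) ∧ ∃ z ∈ Ioo x y, 0 < T z := by
  have hc : ContinuousOn h (Icc x y) := fun z hz => (hd z hz).continuousAt.continuousWithinAt
  constructor
  · by_contra hno
    push Not at hno
    have hanti : AntitoneOn h (Icc x y) := by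
      refine antitoneOn_of_deriv_nonpos (convex_Icc x y) hc ?_ ?_
      · rw [interior_Icc]
        exact fun z hz => (hd z (Ioo_subset_Icc_self hz)).differentiableAt.differentiableWithinAt
      · rw [interior_Icc]
        intro z hz
        rw [(hd z (Ioo_subset_Icc_self hz)).deriv]
        have := hno z hz
        have := hP z (Ioo_subset_Icc_self hz)
        nlinarith [mul_nonneg this.le (hno z hz)]
    apply hT
    intro z hz
    have hconst : ∀ u ∈ Icc x y, h u = h x := by
      intro u hu
      have h1 := hanti (left_mem_Icc.mpr hxy.le) hu hu.1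
      have h2 := hanti hu (right_mem_Icc.mpr hxy.le) hu.2
      linarith
    have hev : h =ᶠ[𝓝 z] fun _ => h x := by
      filter_upwards [Ioo_mem_nhds hz.1 hz.2] with u hu
      exact hconst u (Ioo_subset_Icc_self hu)
    have h1 := (hd z (Ioo_subset_Icc_self hz)).unique ((hasDerivAt_const z (h x)).congr_of_eventuallyEq hev)
    have h2 := hP z (Ioo_subset_Icc_self hz)
    have h3 : P z * T z = 0 := by linarith
    exact (mul_eq_zero.mp h3).resolve_left h2.ne'
  · by_contra hno
    push Not at hno
    have hmono : MonotoneOn h (Icc x y) := by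
      refine monotoneOn_of_deriv_nonneg (convex_Icc x y) hc ?_ ?_
      · rw [interior_Icc]
        exact fun z hz => (hd z (Ioo_subset_Icc_self hz)).differentiableAt.differentiableWithinAt
      · rw [interior_Icc]
        intro z hz
        rw [(hd z (Ioo_subset_Icc_self hz)).deriv]
        have h1 := hno z hz
        have := hP z (Ioo_subset_Icc_self hz)
        nlinarith [mul_nonneg this.le (neg_nonneg.mpr h1)]
    apply hT
    intro z hz
    have hconst : ∀ u ∈ Icc x y, h u = h x := by
      intro u hu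
      have h1 := hmono (left_mem_Icc.mpr hxy.le) hu hu.1
      have h2 := hmono hu (right_mem_Icc.mpr hxy.le) hu.2
      linarith
    have hev : h =ᶠ[𝓝 z] fun _ => h x := by
      filter_upwards [Ioo_mem_nhds hz.1 hz.2] with u hu
      exact hconst u (Ioo_subset_Icc_self hu)
    have h1 := (hd z (Ioo_subset_Icc_self hz)).unique ((hasDerivAt_const z (h x)).congr_of_eventuallyEq hev)
    have h2 := hP z (Ioo_subset_Icc_self hz)
    have h3 : P z * T z = 0 := by linarith
    exact (mul_eq_zero.mp h3).resolve_left h2.ne'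

/-- Mean value: from a lower value to a higher value there is a point with positive derivative. -/
lemma exists_rise {h T P : ℝ → ℝ} {x y : ℝ} (hxy : x < y)
    (hd : ∀ z ∈ Icc x y, HasDerivAt h (-(P z * T z)) z) (hP : ∀ z ∈ Icc x y, 0 < P z)
    (he : h x < h y) : ∃ z ∈ Ioo x y, T z < 0 := by
  have hc : ContinuousOn h (Icc x y) := fun z hz => (hd z hz).continuousAt.continuousWithinAt
  obtain ⟨z, hz, h1⟩ := exists_hasDerivAt_eq_slope h (fun z => -(P z * T z)) hxy hc
    (fun z hz => hd z (Ioo_subset_Icc_self hz))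
  refine ⟨z, hz, ?_⟩
  have h2 : 0 < (h y - h x) / (y - x) := div_pos (by linarith) (by linarith)
  rw [← h1] at h2
  have h3 := hP z (Ioo_subset_Icc_self hz)
  by_contra h4
  push Not at h4
  nlinarith [mul_nonneg h3.le h4]

end Pool.Agent.Y658.CE
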