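import Pool.Agent.Y658.CE.Alg

/-!
# Number of solutions of `H = const` on `(0, π)`, generic case `k² + l² < 1`, `k > 0`, `l ≠ 0`
-/

set_option autoImplicit false

namespace Pool.Agent.Y658.CE

open Real Set

section

variable {e k l : ℝ}

lemma G_pos (hkl : k ^ 2 + l ^ 2 < 1) (θ : ℝ) : 0 < G k l θ := by
  have := g_sq_add k l θ
  unfold G
  nlinarith [sq_nonneg (g1 k l θ)]

lemma W_pos (he0 : 0 < e) (he1 : e < 1) (θ : ℝ) : 0 < W e θ := by
  unfold W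
  nlinarith [Real.neg_one_le_cos θ, Real.cos_le_one θ]

lemma sin_pos' {θ : ℝ} (h : θ ∈ Ioo 0 π) : 0 < sin θ := Real.sin_pos_of_mem_Ioo h

lemma P_pos (hkl : k ^ 2 + l ^ 2 < 1) {θ : ℝ} (h : θ ∈ Ioo 0 π) :
    0 < 1 / (sin θ ^ 2 * √(G k l θ) ^ 3) := by
  have h1 := sin_pos' h
  have h2 := Real.sqrt_pos.mpr (G_pos hkl θ)
  positivity

/-- where `N` vanishes identically on an interval, so does `J` -/
lemma J_zero_of_N_zero (hkl : k ^ 2 + l ^ 2 < 1) {x y : ℝ} (hx : 0 < x) (hy : y < π)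
    (h : ∀ z ∈ Ioo x y, N e k l z = 0) : ∀ z ∈ Ioo x y, J e k l z = 0 := by
  intro z hz
  have hz' : z ∈ Ioo 0 π := ⟨hx.trans hz.1, hz.2.trans hy⟩
  have hs := sin_pos' hz'
  have hG := G_pos hkl z
  have h1 := hd_N e k l hs.ne'
  have hev : N e k l =ᶠ[nhds z] fun _ => 0 := by
    filter_upwards [Ioo_mem_nhds hz.1 hz.2] with u hu
    exact h u hu
  have h2 := h1.unique ((hasDerivAt_const z (0 : ℝ)).congr_of_eventuallyEq hev)
  rw [h z hz, mul_zero, zero_add, div_eq_zero_iff] at h2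
  rcases h2 with h2 | h2
  · have : G k l z * J e k l z = 0 := by linarith
    exact (mul_eq_zero.mp this).resolve_left hG.ne'
  · exact absurd h2 hs.ne'

/-- sign of `J` at an upward crossing of `N` -/
lemma J_nonneg_of_up (hkl : k ^ 2 + l ^ 2 < 1) {z : ℝ} (hz : z ∈ Ioo 0 π) (h0 : N e k l z = 0)
    (h1 : 0 ≤ 3 * (cos z * N e k l z + G k l z * J e k l z) / sin z) : 0 ≤ J e k l z := by
  have hs := sin_pos' hz
  have hG := G_pos hkl z
  rw [h0, mul_zero, zero_add, le_div_iff₀ hs] at h1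
  by_contra h
  push Not at h
  nlinarith [mul_neg_of_pos_of_neg hG h]

lemma J_nonpos_of_down (hkl : k ^ 2 + l ^ 2 < 1) {z : ℝ} (hz : z ∈ Ioo 0 π) (h0 : N e k l z = 0)
    (h1 : 3 * (cos z * N e k l z + G k l z * J e k l z) / sin z ≤ 0) : J e k l z ≤ 0 := by
  have hs := sin_pos' hz
  have hG := G_pos hkl z
  rw [h0, mul_zero, zero_add, div_le_iff₀ hs] at h1
  by_contra h
  push Not at h
  nlinarith [mul_pos hG h]

/-- the two signs of `N` between two solutions -/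
lemma gapN (hkl : k ^ 2 + l ^ 2 < 1) {x y : ℝ} (hx : x ∈ Ioo 0 π) (hy : y ∈ Ioo 0 π) (hxy : x < y)
    (he : H e k l x = H e k l y) (hT : ¬ ∀ z ∈ Ioo x y, N e k l z = 0) :
    (∃ z ∈ Ioo x y, N e k l z < 0) ∧ ∃ z ∈ Ioo x y, 0 < N e k l z := by
  have hsub : ∀ z ∈ Icc x y, z ∈ Ioo 0 π := fun z hz => ⟨hx.1.trans_le hz.1, hz.2.trans_lt hy.2⟩
  exact gap hxy (fun z hz => hd_H e k l (sin_pos' (hsub z hz)).ne' (G_pos hkl z))
    (fun z hz => P_pos hkl (hsub z hz)) he hT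

/-! ### Case `k > 0`, `l > 0` -/

lemma J_pos_of_N_zero (he0 : 0 < e) (he1 : e < 1) (hk : 0 < k) (hl : 0 < l)
    (hkl : k ^ 2 + l ^ 2 < 1) {z : ℝ} (hz : z ∈ Ioo 0 π) (h0 : N e k l z = 0) : 0 < J e k l z := by
  have hs := sin_pos' hz
  have hG := G_pos hkl z
  have hW := W_pos he0 he1 z
  have h1 := id_WGJ e k l z
  rw [h0] at h1
  have h2 : 0 < W e z ^ 3 * G k l z * (k * l) := by positivity
  have h3 : 0 ≤ e * sin z ^ 3 * (e * sin z * G k l z - W e z * g k l z * g1 k l z) ^ 2 := by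
    positivity
  have h4 : 0 < W e z * G k l z * J e k l z := by linarith
  exact (pos_iff_pos_of_mul_pos h4).mp (by positivity)

theorem count_one (he0 : 0 < e) (he1 : e < 1) (hk : 0 < k) (hl : 0 < l)
    (hkl : k ^ 2 + l ^ 2 < 1) (κ : ℝ) : {θ | θ ∈ Ioo 0 π ∧ H e k l θ = κ}.encard ≤ 2 := by
  refine encard_le_of_no_chain (n := 2) fun f hf hfS => ?_
  have h01 : f 0 < f 1 := hf (by decide)
  have h12 : f 1 < f 2 := hf (by decide)
  have hne : ∀ x y : ℝ, x ∈ Ioo 0 π → y ∈ Ioo 0 π → x < y → ¬ ∀ z ∈ Ioo x y, N e k l z = 0 := by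
    intro x y hx hy hxy h
    have hm : (x + y) / 2 ∈ Ioo x y := ⟨by linarith, by linarith⟩
    have h1 := J_zero_of_N_zero hkl hx.1 hy.2 h _ hm
    have h2 := J_pos_of_N_zero he0 he1 hk hl hkl
      ⟨hx.1.trans hm.1, hm.2.trans hy.2⟩ (h _ hm)
    linarith
  obtain ⟨-, y, hy, hy1⟩ := gapN hkl (hfS 0).1 (hfS 1).1 h01 ((hfS 0).2.trans (hfS 1).2.symm)
    (hne _ _ (hfS 0).1 (hfS 1).1 h01)
  obtain ⟨⟨y', hy', hy1'⟩, -⟩ := gapN hkl (hfS 1).1 (hfS 2).1 h12 ((hfS 1).2.trans (hfS 2).2.symm)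
    (hne _ _ (hfS 1).1 (hfS 2).1 h12)
  have hyy : y < y' := hy.2.trans hy'.1
  have hsub : ∀ z ∈ Icc y y', z ∈ Ioo 0 π := fun z hz =>
    ⟨((hfS 0).1.1.trans hy.1).trans_le hz.1, hz.2.trans_lt (hy'.2.trans (hfS 2).1.2)⟩
  obtain ⟨z, hz, hz0, hz1⟩ := cross_down hyy (fun x hx => hd_N e k l (sin_pos' (hsub x hx)).ne')
    hy1 hy1'
  have hz' := hsub z (Ioo_subset_Icc_self hz)
  have h1 := J_nonpos_of_down hkl hz' hz0 hz1
  have h2 := J_pos_of_N_zero he0 he1 hk hl hkl hz' hz0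
  linarith

/-! ### Case `k > 0`, `l < 0` -/

/-- the quadratic form part is nonnegative -/
lemma quad_nonneg (a b : ℝ) : 0 ≤ a ^ 2 - a * b + b ^ 2 := by nlinarith [sq_nonneg (a - b), sq_nonneg (a + b)]

lemma N_pos_of_g (he0 : 0 < e) (he1 : e < 1) (hk : 0 < k) (hl : l < 0)
    (hkl : k ^ 2 + l ^ 2 < 1) {z : ℝ} (hz : z ∈ Ioo 0 π) (hg : 0 ≤ g k l z) : 0 < N e k l z := by
  have hs := sin_pos' hz
  have hG := G_pos hkl z
  have hW := W_pos he0 he1 z
  have h1 := quad_nonneg (e * sin z * G k l z) (W e z * g k l z * g1 k l z)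
  have h2 : 0 < g1 k l z ^ 2 * sin z - l * g k l z := by
    rcases hg.eq_or_lt with h | h
    · have h3 := g_sq_add k l z
      rw [← h] at h3 ⊢
      have : 0 < g1 k l z ^ 2 := by
        have : 0 < k ^ 2 := by positivity
        nlinarith [sq_nonneg l]
      nlinarith [mul_pos this hs]
    · have h3 : 0 ≤ g1 k l z ^ 2 * sin z := by positivity
      nlinarith [mul_pos (neg_pos.mpr hl) h]
  unfold N
  have h3 : 0 < W e z ^ 2 * G k l z * (g1 k l z ^ 2 * sin z - l * g k l z) := by positivity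
  have h4 := mul_nonneg hs.le h1
  linarith

lemma g_neg_of_N (he0 : 0 < e) (he1 : e < 1) (hk : 0 < k) (hl : l < 0)
    (hkl : k ^ 2 + l ^ 2 < 1) {z : ℝ} (hz : z ∈ Ioo 0 π) (h0 : N e k l z = 0) : g k l z < 0 := by
  by_contra h
  push Not at h
  have := N_pos_of_g he0 he1 hk hl hkl hz h
  linarith

/-- `g` changes sign only from plus to minus: `k sin (y - x) = g x sin y - g y sin x` -/
lemma g_sin (k l x y : ℝ) : g k l x * sin y - g k l y * sin x = k * sin (y - x) := by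
  rw [Real.sin_sub]; unfold g; ring

lemma g1_sin (k l x y : ℝ) : g1 k l y * sin x - g1 k l x * sin y = -l * sin (y - x) := by
  rw [Real.sin_sub]; unfold g1; ring

lemma g_neg_later (hk : 0 < k) {x y : ℝ} (hx : x ∈ Ioo 0 π) (hy : y ∈ Ioo 0 π) (hxy : x < y)
    (h : g k l x ≤ 0) : g k l y < 0 := by
  have h1 := g_sin k l x y
  have hsx := sin_pos' hx
  have hsy := sin_pos' hy
  have hs : 0 < sin (y - x) := Real.sin_pos_of_mem_Ioo ⟨by linarith, by linarith [hx.1, hy.2]⟩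
  have h2 : 0 < k * sin (y - x) := mul_pos hk hs
  have h3 : g k l x * sin y ≤ 0 := mul_nonpos_of_nonpos_of_nonneg h hsy.le
  have h4 : g k l y * sin x < 0 := by linarith
  by_contra h5
  push Not at h5
  have := mul_nonneg h5 hsx.le
  linarith

lemma g1_neg_earlier (hl : l < 0) {x y : ℝ} (hx : x ∈ Ioo 0 π) (hy : y ∈ Ioo 0 π) (hxy : x < y)
    (h : g1 k l y ≤ 0) : g1 k l x < 0 := by
  have h1 := g1_sin k l x y
  have hsx := sin_pos' hx
  have hsy := sin_pos' hy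
  have hs : 0 < sin (y - x) := Real.sin_pos_of_mem_Ioo ⟨by linarith, by linarith [hx.1, hy.2]⟩
  have h2 : 0 < -l * sin (y - x) := mul_pos (neg_pos.mpr hl) hs
  have h3 : g1 k l y * sin x ≤ 0 := mul_nonpos_of_nonpos_of_nonneg h hsx.le
  by_contra h5
  push Not at h5
  have := mul_nonneg h5 hsy.le
  linarith

lemma g1_pos_later (hl : l < 0) {x y : ℝ} (hx : x ∈ Ioo 0 π) (hy : y ∈ Ioo 0 π) (hxy : x < y)
    (h : 0 ≤ g1 k l x) : 0 < g1 k l y := by
  by_contra h5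
  push Not at h5
  have := g1_neg_earlier hl hx hy hxy h5
  linarith

lemma J_strictMono {x y : ℝ} (he0 : 0 < e) (hk : 0 < k) (hl : l < 0) (hx : x ∈ Ioo 0 π)
    (hy : y ∈ Ioo 0 π) (hxy : x < y) (hg : g k l x ≤ 0) (hg1 : g1 k l y ≤ 0) :
    J e k l x < J e k l y := by
  have hsub : ∀ z ∈ Icc x y, z ∈ Ioo 0 π := fun z hz => ⟨hx.1.trans_le hz.1, hz.2.trans_lt hy.2⟩
  refine strictMonoOn_of_deriv_pos (convex_Icc x y)
    (fun z hz => (hd_J e k l z).continuousAt.continuousWithinAt) ?_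
    (left_mem_Icc.mpr hxy.le) (right_mem_Icc.mpr hxy.le) hxy
  rw [interior_Icc]
  intro z hz
  rw [(hd_J e k l z).deriv]
  have hz' := hsub z (Ioo_subset_Icc_self hz)
  have hs := sin_pos' hz'
  have h1 := g_neg_later (l := l) hk hx hz' hz.1 hg
  have h2 := g1_neg_earlier (k := k) hl hz' hy hz.2 hg1
  have h3 : 0 < g k l z * g1 k l z := mul_pos_of_neg_of_neg h1 h2
  have : 5 * e * sin z ^ 3 * g k l z * g1 k l z = 5 * e * sin z ^ 3 * (g k l z * g1 k l z) := by ring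
  rw [this]
  positivity

lemma J_strictAnti {x y : ℝ} (he0 : 0 < e) (hk : 0 < k) (hl : l < 0) (hx : x ∈ Ioo 0 π)
    (hy : y ∈ Ioo 0 π) (hxy : x < y) (hg : g k l x ≤ 0) (hg1 : 0 ≤ g1 k l x) :
    J e k l y < J e k l x := by
  have hsub : ∀ z ∈ Icc x y, z ∈ Ioo 0 π := fun z hz => ⟨hx.1.trans_le hz.1, hz.2.trans_lt hy.2⟩
  refine strictAntiOn_of_deriv_neg (convex_Icc x y)
    (fun z hz => (hd_J e k l z).continuousAt.continuousWithinAt) ?_
    (left_mem_Icc.mpr hxy.le) (right_mem_Icc.mpr hxy.le) hxy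
  rw [interior_Icc]
  intro z hz
  rw [(hd_J e k l z).deriv]
  have hz' := hsub z (Ioo_subset_Icc_self hz)
  have hs := sin_pos' hz'
  have h1 := g_neg_later (l := l) hk hx hz' hz.1 hg
  have h2 := g1_pos_later (k := k) hl hx hz' hz.1 hg1
  have h3 : g k l z * g1 k l z < 0 := mul_neg_of_neg_of_pos h1 h2
  have : 5 * e * sin z ^ 3 * g k l z * g1 k l z = 5 * e * sin z ^ 3 * (g k l z * g1 k l z) := by ring
  rw [this]
  exact mul_neg_of_pos_of_neg (by positivity) h3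

/-- strict quasi-concavity of `J` where `g < 0` -/
lemma J_quasi {x y z : ℝ} (he0 : 0 < e) (hk : 0 < k) (hl : l < 0) (hx : x ∈ Ioo 0 π)
    (hz : z ∈ Ioo 0 π) (hxy : x < y) (hyz : y < z) (hg : g k l x ≤ 0) (h1 : 0 ≤ J e k l x)
    (h2 : 0 ≤ J e k l z) : 0 < J e k l y := by
  have hy : y ∈ Ioo 0 π := ⟨hx.1.trans hxy, hyz.trans hz.2⟩
  rcases le_total (g1 k l y) 0 with h | h
  · exact h1.trans_lt (J_strictMono he0 hk hl hx hy hxy hg h)
  · exact h2.trans_lt (J_strictAnti he0 hk hl hy hz hyz (g_neg_later hk hx hy hxy hg).le h)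

lemma N_not_zero (he0 : 0 < e) (he1 : e < 1) (hk : 0 < k) (hl : l < 0)
    (hkl : k ^ 2 + l ^ 2 < 1) {x y : ℝ} (hx : x ∈ Ioo 0 π) (hy : y ∈ Ioo 0 π) (hxy : x < y) :
    ¬ ∀ z ∈ Ioo x y, N e k l z = 0 := by
  intro h
  have h1 : (3 * x + y) / 4 ∈ Ioo x y := ⟨by linarith, by linarith⟩
  have h2 : (x + y) / 2 ∈ Ioo x y := ⟨by linarith, by linarith⟩
  have h3 : (x + 3 * y) / 4 ∈ Ioo x y := ⟨by linarith, by linarith⟩
  have hJ := J_zero_of_N_zero hkl hx.1 hy.2 h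
  have hin : ∀ u ∈ Ioo x y, u ∈ Ioo 0 π := fun u hu => ⟨hx.1.trans hu.1, hu.2.trans hy.2⟩
  have h4 := J_quasi he0 hk hl (hin _ h1) (hin _ h3) (by linarith : (3 * x + y) / 4 < (x + y) / 2)
    (by linarith) (g_neg_of_N he0 he1 hk hl hkl (hin _ h1) (h _ h1)).le (hJ _ h1).ge (hJ _ h3).ge
  rw [hJ _ h2] at h4
  exact lt_irrefl _ h4

theorem count_four (he0 : 0 < e) (he1 : e < 1) (hk : 0 < k) (hl : l < 0)
    (hkl : k ^ 2 + l ^ 2 < 1) (κ : ℝ) : {θ | θ ∈ Ioo 0 π ∧ H e k l θ = κ}.encard ≤ 4 := by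
  refine encard_le_of_no_chain (n := 4) fun f hf hfS => ?_
  have hlt : ∀ i j : Fin 5, i < j → f i < f j := fun i j h => hf h
  have hgap : ∀ i j : Fin 5, i < j → (∃ z ∈ Ioo (f i) (f j), N e k l z < 0) ∧
      ∃ z ∈ Ioo (f i) (f j), 0 < N e k l z := fun i j hij =>
    gapN hkl (hfS i).1 (hfS j).1 (hlt i j hij) ((hfS i).2.trans (hfS j).2.symm)
      (N_not_zero he0 he1 hk hl hkl (hfS i).1 (hfS j).1 (hlt i j hij))
  obtain ⟨⟨y1, hy1, hn1⟩, -⟩ := hgap 0 1 (by decide)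
  obtain ⟨-, y2, hy2, hn2⟩ := hgap 1 2 (by decide)
  obtain ⟨⟨y3, hy3, hn3⟩, -⟩ := hgap 2 3 (by decide)
  obtain ⟨-, y4, hy4, hn4⟩ := hgap 3 4 (by decide)
  have hin : ∀ u : ℝ, f 0 < u → u < f 4 → u ∈ Ioo 0 π := fun u h1 h2 =>
    ⟨(hfS 0).1.1.trans h1, h2.trans (hfS 4).1.2⟩
  have b1 := hlt 0 1 (by decide)
  have b2 := hlt 1 2 (by decide)
  have b3 := hlt 2 3 (by decide)
  have b4 := hlt 3 4 (by decide)
  obtain ⟨z1, hz1, h01, h11⟩ := cross_up (hy1.2.trans hy2.1) (fun x hx => hd_N e k l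
    (sin_pos' (hin x (by linarith [hy1.1, hx.1]) (by linarith [hy2.2, hx.2]))).ne') hn1 hn2
  obtain ⟨z2, hz2, h02, h12⟩ := cross_down (hy2.2.trans hy3.1) (fun x hx => hd_N e k l
    (sin_pos' (hin x (by linarith [hy2.1, hx.1]) (by linarith [hy3.2, hx.2]))).ne') hn2 hn3
  obtain ⟨z3, hz3, h03, h13⟩ := cross_up (hy3.2.trans hy4.1) (fun x hx => hd_N e k l
    (sin_pos' (hin x (by linarith [hy3.1, hx.1]) (by linarith [hy4.2, hx.2]))).ne') hn3 hn4
  have m1 : z1 ∈ Ioo 0 π := hin _ (by linarith [hy1.1, hz1.1]) (by linarith [hy2.2, hz1.2])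
  have m2 : z2 ∈ Ioo 0 π := hin _ (by linarith [hy2.1, hz2.1]) (by linarith [hy3.2, hz2.2])
  have m3 : z3 ∈ Ioo 0 π := hin _ (by linarith [hy3.1, hz3.1]) (by linarith [hy4.2, hz3.2])
  have j1 := J_nonneg_of_up hkl m1 h01 h11
  have j2 := J_nonpos_of_down hkl m2 h02 h12
  have j3 := J_nonneg_of_up hkl m3 h03 h13
  have := J_quasi he0 hk hl m1 m3 (hz1.2.trans hz2.1) (hz2.2.trans hz3.1)
    (g_neg_of_N he0 he1 hk hl hkl m1 h01).le j1 j3
  linarith

lemma gg1_of_H_neg (he0 : 0 < e) (he1 : e < 1) (hk : 0 < k) (hl : l < 0)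
    (hkl : k ^ 2 + l ^ 2 < 1) {z : ℝ} (hz : z ∈ Ioo 0 π) (h : H e k l z < 0) :
    g k l z < 0 ∧ g1 k l z < 0 := by
  have hs := sin_pos' hz
  have hG := G_pos hkl z
  have hW := W_pos he0 he1 z
  have hD := Real.sqrt_pos.mpr hG
  have hA : A e k l z < 0 := by
    unfold H at h
    by_contra h1
    push Not at h1
    have : 0 ≤ A e k l z / (sin z * √(G k l z)) := by positivity
    linarith
  unfold A at hA
  have h1 : 0 < e * W e z * sin z * G k l z := by positivity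
  have h2 : 0 < g k l z * g1 k l z := by
    by_contra h3
    push Not at h3
    have : W e z ^ 2 * g k l z * g1 k l z ≤ 0 := by
      rw [mul_assoc]
      exact mul_nonpos_of_nonneg_of_nonpos (by positivity) h3
    linarith
  -- g > 0 and g1 > 0 is impossible
  rcases lt_trichotomy (g k l z) 0 with h3 | h3 | h3
  · exact ⟨h3, by
      by_contra h4
      push Not at h4
      have := mul_nonpos_of_nonpos_of_nonneg h3.le h4
      linarith⟩
  · rw [h3, zero_mul] at h2; exact absurd h2 (lt_irrefl _)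
  · exfalso
    have h4 : 0 < g1 k l z := (pos_iff_pos_of_mul_pos h2).mp h3
    -- l = g sin + g1 cos, k = g cos - g1 sin
    have e1 := l_eq k l z
    have e2 := k_eq k l z
    have hc : cos z < 0 := by
      by_contra h5
      push Not at h5
      have := mul_nonneg h4.le h5
      have := mul_pos h3 hs
      linarith
    have h6 : g k l z * cos z < 0 := mul_neg_of_pos_of_neg h3 hc
    have h7 : 0 < g1 k l z * sin z := mul_pos h4 hs
    linarith

theorem count_two_neg (he0 : 0 < e) (he1 : e < 1) (hk : 0 < k) (hl : l < 0)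
    (hkl : k ^ 2 + l ^ 2 < 1) {κ : ℝ} (hκ : κ < 0) :
    {θ | θ ∈ Ioo 0 π ∧ H e k l θ = κ}.encard ≤ 2 := by
  refine encard_le_of_no_chain (n := 2) fun f hf hfS => ?_
  have hlt : ∀ i j : Fin 3, i < j → f i < f j := fun i j h => hf h
  have hgap : ∀ i j : Fin 3, i < j → (∃ z ∈ Ioo (f i) (f j), N e k l z < 0) ∧
      ∃ z ∈ Ioo (f i) (f j), 0 < N e k l z := fun i j hij =>
    gapN hkl (hfS i).1 (hfS j).1 (hlt i j hij) ((hfS i).2.trans (hfS j).2.symm)
      (N_not_zero he0 he1 hk hl hkl (hfS i).1 (hfS j).1 (hlt i j hij))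
  obtain ⟨⟨y1, hy1, hn1⟩, -⟩ := hgap 0 1 (by decide)
  obtain ⟨-, y2, hy2, hn2⟩ := hgap 1 2 (by decide)
  have b1 := hlt 0 1 (by decide)
  have b2 := hlt 1 2 (by decide)
  -- the zero of `g1` to the right of `f 2`
  have h2 := gg1_of_H_neg he0 he1 hk hl hkl (hfS 2).1 (by rw [(hfS 2).2]; exact hκ)
  have hpi : 0 < g1 k l π := by unfold g1; simp [hl]
  have hcont : ContinuousOn (g1 k l) (Icc (f 2) π) :=
    fun z _ => (hd_g1 k l z).continuousAt.continuousWithinAt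
  obtain ⟨t, ht, ht0⟩ := intermediate_value_Ioo (hfS 2).1.2.le hcont ⟨h2.2, hpi⟩
  have htm : t ∈ Ioo 0 π := ⟨(hfS 2).1.1.trans ht.1, ht.2⟩
  have hHt : 0 < H e k l t := by
    have hs := sin_pos' htm
    have hG := G_pos hkl t
    have hW := W_pos he0 he1 t
    have hD := Real.sqrt_pos.mpr hG
    unfold H A
    rw [ht0]
    have : e * W e t * sin t * G k l t - W e t ^ 2 * g k l t * 0 = e * W e t * sin t * G k l t := by
      ring
    rw [this]
    positivity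
  obtain ⟨y3, hy3, hn3⟩ := exists_rise ht.1
    (fun z hz => hd_H e k l (sin_pos' ⟨(hfS 2).1.1.trans_le hz.1, hz.2.trans_lt ht.2⟩).ne'
      (G_pos hkl z)) (fun z hz => P_pos hkl ⟨(hfS 2).1.1.trans_le hz.1, hz.2.trans_lt ht.2⟩)
    (by rw [(hfS 2).2]; linarith)
  have hin : ∀ u : ℝ, f 0 < u → u < t → u ∈ Ioo 0 π := fun u h1 h2 =>
    ⟨(hfS 0).1.1.trans h1, h2.trans ht.2⟩
  have ht1 := ht.1
  obtain ⟨z1, hz1, h01, h11⟩ := cross_up (hy1.2.trans hy2.1) (fun x hx => hd_N e k l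
    (sin_pos' (hin x (by linarith [hy1.1, hx.1]) (by linarith [hy2.2, hx.2]))).ne') hn1 hn2
  obtain ⟨z2, hz2, h02, h12⟩ := cross_down (hy2.2.trans hy3.1) (fun x hx => hd_N e k l
    (sin_pos' (hin x (by linarith [hy2.1, hx.1]) (by linarith [hy3.2, hx.2]))).ne') hn2 hn3
  have m1 : z1 ∈ Ioo 0 π := hin _ (by linarith [hy1.1, hz1.1]) (by linarith [hy2.2, hz1.2])
  have m2 : z2 ∈ Ioo 0 π := hin _ (by linarith [hy2.1, hz2.1]) (by linarith [hy3.2, hz2.2])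
  have j1 := J_nonneg_of_up hkl m1 h01 h11
  have j2 := J_nonpos_of_down hkl m2 h02 h12
  have hz2t : z2 < t := by linarith [hy3.2, hz2.2]
  have := J_strictMono he0 hk hl m1 m2 (hz1.2.trans hz2.1)
    (g_neg_of_N he0 he1 hk hl hkl m1 h01).le (g1_neg_earlier hl m2 htm hz2t ht0.le).le
  linarith

end

end Pool.Agent.Y658.CE
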