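import Pool.Agent.Y658.CE.Planar

/-!
# A circle and a non-circular ellipse with a common focus: at most ten stationary points

Question Q2 of problem MP_4e5648_mp, answered in full: the squared distance between the points of a
circle and the points of a non-circular ellipse of three-dimensional Euclidean space, the centre of
the circle being a focus of the ellipse, has at most ten stationary points.
-/

set_option autoImplicit false

namespace Pool.Agent.Y658.CE.Geom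

open Real Set

/-- Euclidean space of dimension three -/
abbrev E3 : Type := EuclideanSpace ℝ (Fin 3)

/-- The point of parameter `s` (eccentric anomaly) of the ellipse with focus `F`, semimajor axis
`a`, eccentricity `e` and centre `F + (a e) u`, in the plane through `F` spanned by the orthonormal
vectors `u` and `w`.  For `e = 0` this is the circle of centre `F` and radius `a` of that plane. -/
noncomputable def ell (F u w : E3) (a e s : ℝ) : E3 :=
  F + (a * (e + cos s)) • u + (a * √(1 - e ^ 2) * sin s) • w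

/-- The stationary points of the squared distance on the product of two such ellipses: the pairs of
points at which both partial derivatives of the squared distance, expressed with the two
parametrisations, vanish. -/
def stationary (F u₁ w₁ u₂ w₂ : E3) (a₁ e₁ a₂ e₂ : ℝ) : Set (E3 × E3) :=
  {x | ∃ s t : ℝ, x = (ell F u₁ w₁ a₁ e₁ s, ell F u₂ w₂ a₂ e₂ t) ∧
    deriv (fun s' : ℝ => ‖ell F u₁ w₁ a₁ e₁ s' - ell F u₂ w₂ a₂ e₂ t‖ ^ 2) s = 0 ∧
    deriv (fun t' : ℝ => ‖ell F u₁ w₁ a₁ e₁ s - ell F u₂ w₂ a₂ e₂ t'‖ ^ 2) t = 0}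

lemma exists_third (u₁ w₁ u₂ w₂ : E3)
    (hu₁ : ‖u₁‖ = 1) (hw₁ : ‖w₁‖ = 1) (huw₁ : inner ℝ u₁ w₁ = 0)
    (hu₂ : ‖u₂‖ = 1) (hw₂ : ‖w₂‖ = 1) (huw₂ : inner ℝ u₂ w₂ = 0) :
    ∃ k l : ℝ, inner ℝ u₁ u₂ ^ 2 + inner ℝ w₁ u₂ ^ 2 + k ^ 2 = 1 ∧
      inner ℝ u₁ w₂ ^ 2 + inner ℝ w₁ w₂ ^ 2 + l ^ 2 = 1 ∧
      inner ℝ u₁ u₂ * inner ℝ u₁ w₂ + inner ℝ w₁ u₂ * inner ℝ w₁ w₂ + k * l = 0 := by
  have hon : Orthonormal ℝ (({0, 1} : Set (Fin 3)).domRestrict ![u₁, w₁, 0]) := by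
    constructor
    · rintro ⟨i, hi⟩
      simp only [mem_insert_iff, mem_singleton_iff] at hi
      rcases hi with rfl | rfl
      · exact hu₁
      · exact hw₁
    · rintro ⟨i, hi⟩ ⟨j, hj⟩ hij
      simp only [mem_insert_iff, mem_singleton_iff] at hi hj
      rcases hi with rfl | rfl <;> rcases hj with rfl | rfl
      · exact absurd rfl hij
      · exact huw₁
      · exact (real_inner_comm u₁ w₁).trans huw₁
      · exact absurd rfl hij
  obtain ⟨b, hb⟩ := hon.exists_orthonormalBasis_extension_of_card_eq (by simp)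
  have hb0 : b 0 = u₁ := by simpa using hb 0 (by simp)
  have hb1 : b 1 = w₁ := by simpa using hb 1 (by simp)
  refine ⟨inner ℝ (b 2) u₂, inner ℝ (b 2) w₂, ?_, ?_, ?_⟩
  · have h := b.sum_inner_mul_inner u₂ u₂
    rw [Fin.sum_univ_three, hb0, hb1, real_inner_self_eq_norm_sq, hu₂] at h
    simp only [real_inner_comm u₁ u₂, real_inner_comm w₁ u₂, real_inner_comm (b 2) u₂] at h ⊢
    linarith
  · have h := b.sum_inner_mul_inner w₂ w₂
    rw [Fin.sum_univ_three, hb0, hb1, real_inner_self_eq_norm_sq, hw₂] at h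
    simp only [real_inner_comm u₁ w₂, real_inner_comm w₁ w₂, real_inner_comm (b 2) w₂] at h ⊢
    linarith
  · have h := b.sum_inner_mul_inner u₂ w₂
    rw [Fin.sum_univ_three, hb0, hb1, huw₂] at h
    simp only [real_inner_comm u₁ u₂, real_inner_comm w₁ u₂, real_inner_comm (b 2) u₂] at h ⊢
    linarith


/-- the squared distance in coordinates -/
lemma dist_sq (F u₁ w₁ u₂ w₂ : E3) (r a e : ℝ) (he0 : 0 < e) (he1 : e < 1)
    (hu₁ : ‖u₁‖ = 1) (hw₁ : ‖w₁‖ = 1) (huw₁ : inner ℝ u₁ w₁ = 0)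
    (hu₂ : ‖u₂‖ = 1) (hw₂ : ‖w₂‖ = 1) (huw₂ : inner ℝ u₂ w₂ = 0) (s t : ℝ) :
    ‖ell F u₁ w₁ r 0 s - ell F u₂ w₂ a e t‖ ^ 2 =
      r ^ 2 + (a * (1 + e * cos t)) ^ 2
        - 2 * r * a * (cos s * ((e + cos t) * inner ℝ u₁ u₂ + √(1 - e ^ 2) * sin t * inner ℝ u₁ w₂)
          + sin s * ((e + cos t) * inner ℝ w₁ u₂ + √(1 - e ^ 2) * sin t * inner ℝ w₁ w₂)) := by
  have hb : √(1 - e ^ 2) ^ 2 = 1 - e ^ 2 := sq_sqrt (by nlinarith)
  have h1 : ell F u₁ w₁ r 0 s - ell F u₂ w₂ a e t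
      = ((r * cos s) • u₁ + (r * sin s) • w₁)
        - ((a * (e + cos t)) • u₂ + (a * √(1 - e ^ 2) * sin t) • w₂) := by
    unfold ell
    simp only [zero_add, ne_eq, OfNat.ofNat_ne_zero, not_false_eq_true, zero_pow, sub_zero,
      sqrt_one, mul_one]
    abel
  rw [h1, norm_sub_sq_real, norm_add_sq_real, norm_add_sq_real]
  simp only [inner_add_left, inner_add_right, inner_smul_left, inner_smul_right, norm_smul,
    Real.norm_eq_abs, mul_pow, sq_abs, hu₁, hw₁, hu₂, hw₂, huw₁, huw₂, conj_trivial, mul_one, mul_zero, add_zero]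
  generalize √(1 - e ^ 2) = b at *
  linear_combination r ^ 2 * Real.sin_sq_add_cos_sq s + a ^ 2 * sin t ^ 2 * hb
    + a ^ 2 * (1 - e ^ 2) * Real.sin_sq_add_cos_sq t

/-- the first ellipse is a circle -/
lemma circle_encard_le (F u₁ w₁ u₂ w₂ : E3) (r a e : ℝ) (hr : 0 < r) (ha : 0 < a)
    (he0 : 0 < e) (he1 : e < 1)
    (hu₁ : ‖u₁‖ = 1) (hw₁ : ‖w₁‖ = 1) (huw₁ : inner ℝ u₁ w₁ = 0)
    (hu₂ : ‖u₂‖ = 1) (hw₂ : ‖w₂‖ = 1) (huw₂ : inner ℝ u₂ w₂ = 0) :
    (stationary F u₁ w₁ u₂ w₂ r 0 a e).encard ≤ 10 := by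
  obtain ⟨k, l, hα, hβ, hαβ⟩ := exists_third u₁ w₁ u₂ w₂ hu₁ hw₁ huw₁ hu₂ hw₂ huw₂
  set κ : ℝ := a * e * (1 - e ^ 2) / r with hκ
  have he2 : 0 < 1 - e ^ 2 := by nlinarith
  have hκ0 : 0 < κ := by positivity
  let Ψ : (ℝ × ℝ) × (ℝ × ℝ) → E3 × E3 := fun z =>
    (F + (r * z.1.1) • u₁ + (r * z.1.2) • w₁,
      F + (-(a * (1 - e ^ 2) / (1 + e * z.2.1)) * z.2.1) • u₂
        + (-(a * (1 - e ^ 2) / (1 + e * z.2.1)) * z.2.2) • w₂)
  refine ((encard_le_encard ?_).trans (encard_image_le Ψ _)).trans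
    (Pool.Agent.Y658.CE.RR_encard_le he0 he1 hκ0 hα hβ hαβ)
  rintro _ ⟨s, t, rfl, hs, ht⟩
  have hb : √(1 - e ^ 2) ^ 2 = 1 - e ^ 2 := sq_sqrt he2.le
  have hb0 : 0 < √(1 - e ^ 2) := sqrt_pos.mpr he2
  have hE : 0 < 1 + e * cos t := by nlinarith [neg_one_le_cos t]
  simp only [dist_sq F u₁ w₁ u₂ w₂ r a e he0 he1 hu₁ hw₁ huw₁ hu₂ hw₂ huw₂] at hs ht
  simp only [ell, Ψ]
  generalize √(1 - e ^ 2) = b at *
  generalize (inner ℝ u₁ u₂ : ℝ) = α₁ at *
  generalize (inner ℝ w₁ u₂ : ℝ) = α₂ at *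
  generalize (inner ℝ u₁ w₂ : ℝ) = β₁ at *
  generalize (inner ℝ w₁ w₂ : ℝ) = β₂ at *
  -- the two partial derivatives
  have ds : HasDerivAt (fun s' : ℝ => r ^ 2 + (a * (1 + e * cos t)) ^ 2
        - 2 * r * a * (cos s' * ((e + cos t) * α₁ + b * sin t * β₁)
          + sin s' * ((e + cos t) * α₂ + b * sin t * β₂)))
      (- (2 * r * a * (-sin s * ((e + cos t) * α₁ + b * sin t * β₁)
          + cos s * ((e + cos t) * α₂ + b * sin t * β₂)))) s := by
    have := ((((hasDerivAt_cos s).mul_const ((e + cos t) * α₁ + b * sin t * β₁)).add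
      ((hasDerivAt_sin s).mul_const ((e + cos t) * α₂ + b * sin t * β₂))).const_mul
        (2 * r * a)).const_sub (r ^ 2 + (a * (1 + e * cos t)) ^ 2)
    exact this
  have dt : HasDerivAt (fun t' : ℝ => r ^ 2 + (a * (1 + e * cos t')) ^ 2
        - 2 * r * a * (cos s * ((e + cos t') * α₁ + b * sin t' * β₁)
          + sin s * ((e + cos t') * α₂ + b * sin t' * β₂)))
      (2 * (a * (1 + e * cos t)) * (a * (e * (-sin t)))
        - 2 * r * a * (cos s * (-sin t * α₁ + b * cos t * β₁)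
          + sin s * (-sin t * α₂ + b * cos t * β₂))) t := by
    have hc := hasDerivAt_cos t
    have hsn := hasDerivAt_sin t
    have h1 := ((((hc.const_mul e).const_add 1).const_mul a).pow 2).const_add (r ^ 2)
    have h2 := ((((hc.const_add e).mul_const α₁).add ((hsn.const_mul b).mul_const β₁)).const_mul
      (cos s)).add ((((hc.const_add e).mul_const α₂).add
        ((hsn.const_mul b).mul_const β₂)).const_mul (sin s))
    refine HasDerivAt.congr_deriv (h1.sub (h2.const_mul (2 * r * a))) ?_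
    norm_num
  rw [ds.deriv] at hs
  rw [dt.deriv] at ht
  have hs' : sin s * ((e + cos t) * α₁ + b * sin t * β₁)
      = cos s * ((e + cos t) * α₂ + b * sin t * β₂) := by
    have h1 : (2 * r * a) * (sin s * ((e + cos t) * α₁ + b * sin t * β₁)
      - cos s * ((e + cos t) * α₂ + b * sin t * β₂)) = 0 := by linarith
    have := (mul_eq_zero.mp h1).resolve_left (by positivity)
    linarith
  have ht' : a * (1 + e * cos t) * (e * sin t)
      + r * (cos s * (-sin t * α₁ + b * cos t * β₁) + sin s * (-sin t * α₂ + b * cos t * β₂)) = 0 := by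
    have h1 : (2 * a) * (a * (1 + e * cos t) * (e * sin t)
      + r * (cos s * (-sin t * α₁ + b * cos t * β₁)
        + sin s * (-sin t * α₂ + b * cos t * β₂))) = 0 := by linarith
    exact (mul_eq_zero.mp h1).resolve_left (by positivity)
  -- true anomaly
  have hE0 : 1 + e * cos t ≠ 0 := hE.ne'
  have hW : 1 + e * (-(e + cos t) / (1 + e * cos t)) = (1 - e ^ 2) / (1 + e * cos t) := by
    field_simp
    ring
  have hsc := Real.sin_sq_add_cos_sq t
  refine ⟨((cos s, sin s), (-(e + cos t) / (1 + e * cos t), -(b * sin t) / (1 + e * cos t))),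
    ⟨Real.cos_sq_add_sin_sq s, ?_, ?_, ?_⟩, ?_⟩
  · simp only
    rw [div_pow, div_pow, ← add_div, div_eq_one_iff_eq (by positivity)]
    linear_combination sin t ^ 2 * hb + (1 - e ^ 2) * hsc
  · simp only
    field_simp
    linarith
  · simp only
    rw [hW]
    have h6 : -(e + cos t) / (1 + e * cos t) + e = -(b ^ 2 * cos t) / (1 + e * cos t) := by
      rw [hb]
      field_simp
      ring
    rw [h6, hκ]
    field_simp
    linear_combination ht'
  · simp only [Prod.mk.injEq]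
    rw [hW]
    have h7 : a * (1 - e ^ 2) / ((1 - e ^ 2) / (1 + e * cos t)) = a * (1 + e * cos t) := by
      field_simp
    have h8 : -(a * (1 + e * cos t)) * (-(e + cos t) / (1 + e * cos t)) = a * (e + cos t) := by
      field_simp
    have h9 : -(a * (1 + e * cos t)) * (-(b * sin t) / (1 + e * cos t)) = a * b * sin t := by
      field_simp
    rw [h7, h8, h9]
    refine ⟨?_, rfl⟩
    simp

/-- exchanging the two ellipses -/
lemma stationary_swap (F u₁ w₁ u₂ w₂ : E3) (a₁ e₁ a₂ e₂ : ℝ) :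
    stationary F u₁ w₁ u₂ w₂ a₁ e₁ a₂ e₂
      = Prod.swap '' stationary F u₂ w₂ u₁ w₁ a₂ e₂ a₁ e₁ := by
  ext x
  constructor
  · rintro ⟨s, t, rfl, hs, ht⟩
    refine ⟨(ell F u₂ w₂ a₂ e₂ t, ell F u₁ w₁ a₁ e₁ s), ⟨t, s, rfl, ?_, ?_⟩, rfl⟩
    · simpa only [norm_sub_rev] using ht
    · simpa only [norm_sub_rev] using hs
  · rintro ⟨_, ⟨t, s, rfl, ht, hs⟩, rfl⟩
    refine ⟨s, t, rfl, ?_, ?_⟩
    · simpa only [norm_sub_rev] using hs
    · simpa only [norm_sub_rev] using ht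

/-- **Question Q2 of MP_4e5648_mp.**  For two ellipses of three-dimensional Euclidean space with a
common focus `F`, exactly one of which is a circle, the squared distance of a point of the first
and a point of the second has finitely many stationary points, and at most ten. -/
theorem main (F u₁ w₁ u₂ w₂ : E3) (a₁ e₁ a₂ e₂ : ℝ) (ha₁ : 0 < a₁) (ha₂ : 0 < a₂)
    (hu₁ : ‖u₁‖ = 1) (hw₁ : ‖w₁‖ = 1) (huw₁ : inner ℝ u₁ w₁ = 0)
    (hu₂ : ‖u₂‖ = 1) (hw₂ : ‖w₂‖ = 1) (huw₂ : inner ℝ u₂ w₂ = 0)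
    (he : (e₁ = 0 ∧ 0 < e₂ ∧ e₂ < 1) ∨ (0 < e₁ ∧ e₁ < 1 ∧ e₂ = 0)) :
    (stationary F u₁ w₁ u₂ w₂ a₁ e₁ a₂ e₂).Finite ∧
      (stationary F u₁ w₁ u₂ w₂ a₁ e₁ a₂ e₂).ncard ≤ 10 := by
  have h : (stationary F u₁ w₁ u₂ w₂ a₁ e₁ a₂ e₂).encard ≤ (10 : ℕ) := by
    rcases he with ⟨h0, h1, h2⟩ | ⟨h1, h2, h0⟩
    · subst h0
      exact circle_encard_le F u₁ w₁ u₂ w₂ a₁ a₂ e₂ ha₁ ha₂ h1 h2 hu₁ hw₁ huw₁ hu₂ hw₂ huw₂
    · subst h0
      rw [stationary_swap]
      exact (encard_image_le _ _).trans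
        (circle_encard_le F u₂ w₂ u₁ w₁ a₂ a₁ e₁ ha₂ ha₁ h1 h2 hu₂ hw₂ huw₂ hu₁ hw₁ huw₁)
  have hf := Set.finite_of_encard_le_coe h
  refine ⟨hf, ?_⟩
  rw [← hf.cast_ncard_eq] at h
  exact_mod_cast h

end Pool.Agent.Y658.CE.Geom
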