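import Pool.Agent.Y658.CE.Special

/-!
# The circle and ellipse problem in coordinates

`RR` is the set of stationary pairs, written with the unit vectors `(cs, sn)` and `(x, y)`.
-/

set_option autoImplicit false

namespace Pool.Agent.Y658.CE

open Real Set

variable {α₁ α₂ α₃ β₁ β₂ β₃ e κ : ℝ}

/-- stationary pairs in coordinates -/
def RR (α₁ α₂ β₁ β₂ e κ : ℝ) : Set ((ℝ × ℝ) × (ℝ × ℝ)) :=
  {z | z.1.1 ^ 2 + z.1.2 ^ 2 = 1 ∧ z.2.1 ^ 2 + z.2.2 ^ 2 = 1 ∧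
    (z.2.1 * α₂ + z.2.2 * β₂) * z.1.1 = (z.2.1 * α₁ + z.2.2 * β₁) * z.1.2 ∧
    (1 + e * z.2.1) * (z.1.1 * (z.2.2 * α₁ - (z.2.1 + e) * β₁)
      + z.1.2 * (z.2.2 * α₂ - (z.2.1 + e) * β₂)) = κ * z.2.2}

/-- the component `μ` -/
def mu (α₁ α₂ β₁ β₂ : ℝ) (z : (ℝ × ℝ) × (ℝ × ℝ)) : ℝ :=
  -(z.2.1 * α₁ + z.2.2 * β₁) * z.1.1 - (z.2.1 * α₂ + z.2.2 * β₂) * z.1.2

lemma key {z : (ℝ × ℝ) × (ℝ × ℝ)} (h : z ∈ RR α₁ α₂ β₁ β₂ e κ)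
    (hα : α₁ ^ 2 + α₂ ^ 2 + α₃ ^ 2 = 1) (hβ : β₁ ^ 2 + β₂ ^ 2 + β₃ ^ 2 = 1)
    (hαβ : α₁ * β₁ + α₂ * β₂ + α₃ * β₃ = 0) :
    -(z.2.1 * α₁ + z.2.2 * β₁) = mu α₁ α₂ β₁ β₂ z * z.1.1 ∧
    -(z.2.1 * α₂ + z.2.2 * β₂) = mu α₁ α₂ β₁ β₂ z * z.1.2 ∧
    mu α₁ α₂ β₁ β₂ z ^ 2 = 1 - (α₃ * z.2.1 + β₃ * z.2.2) ^ 2 ∧
    e * (1 + e * z.2.1) * z.2.2 * (1 - (α₃ * z.2.1 + β₃ * z.2.2) ^ 2)
      - (1 + e * z.2.1) ^ 2 * (α₃ * z.2.1 + β₃ * z.2.2) * (β₃ * z.2.1 - α₃ * z.2.2)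
      = κ * z.2.2 * mu α₁ α₂ β₁ β₂ z := by
  obtain ⟨⟨cs, sn⟩, ⟨x, y⟩⟩ := z
  obtain ⟨h1, h2, h3, h4⟩ := h
  simp only at h1 h2 h3 h4 ⊢
  have e1 : -(x * α₁ + y * β₁) = mu α₁ α₂ β₁ β₂ ((cs, sn), (x, y)) * cs := by
    unfold mu
    linear_combination (x * α₁ + y * β₁) * h1 + sn * h3
  have e2 : -(x * α₂ + y * β₂) = mu α₁ α₂ β₁ β₂ ((cs, sn), (x, y)) * sn := by
    unfold mu
    linear_combination (x * α₂ + y * β₂) * h1 - cs * h3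
  refine ⟨e1, e2, ?_, ?_⟩
  · have : mu α₁ α₂ β₁ β₂ ((cs, sn), (x, y)) ^ 2 = (x * α₁ + y * β₁) ^ 2 + (x * α₂ + y * β₂) ^ 2 := by
      generalize mu α₁ α₂ β₁ β₂ ((cs, sn), (x, y)) = m at *
      have e1' : x * α₁ + y * β₁ = - (m * cs) := by linarith
      have e2' : x * α₂ + y * β₂ = - (m * sn) := by linarith
      rw [e1', e2']
      linear_combination (-m ^ 2) * h1
    rw [this]
    linear_combination x ^ 2 * hα + y ^ 2 * hβ + 2 * x * y * hαβ + h2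
  · generalize mu α₁ α₂ β₁ β₂ ((cs, sn), (x, y)) = m at *
    have h5 : (1 + e * x) * (-(x * α₁ + y * β₁) * (y * α₁ - (x + e) * β₁)
        - (x * α₂ + y * β₂) * (y * α₂ - (x + e) * β₂)) = κ * y * m := by
      linear_combination (1 + e * x) * (y * α₁ - (x + e) * β₁) * e1
        + (1 + e * x) * (y * α₂ - (x + e) * β₂) * e2 + m * h4
    rw [← h5]
    linear_combination (1 + e * x) * (x * y) * hα - (1 + e * x) * (y * (x + e)) * hβ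
      + (1 + e * x) * (y ^ 2 - x * (x + e)) * hαβ
      - e * (1 + e * x) * β₃ * (x * α₃ + y * β₃) * h2


/-- four sign choices -/
def pm : Set (ℝ × ℝ) := ({1, -1} : Set ℝ) ×ˢ ({1, -1} : Set ℝ)

lemma mem_pm {a b : ℝ} (ha : a = 1 ∨ a = -1) (hb : b = 1 ∨ b = -1) : (a, b) ∈ pm :=
  ⟨by simpa using ha, by simpa using hb⟩

lemma pm_encard_le : pm.encard ≤ 4 := by
  have : pm = {((1 : ℝ), (1 : ℝ)), (1, -1), (-1, 1), (-1, -1)} := by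
    ext ⟨a, b⟩
    simp only [pm, mem_prod, mem_insert_iff, mem_singleton_iff, Prod.mk.injEq]
    tauto
  rw [this]
  refine (encard_insert_le _ _).trans ?_
  refine (add_le_add_left (encard_insert_le _ _) _).trans ?_
  refine (add_le_add_left (add_le_add_left (encard_insert_le _ _) _) _).trans ?_
  rw [encard_singleton]
  norm_num

/-- the upper part -/
lemma up_le (hα : α₁ ^ 2 + α₂ ^ 2 + α₃ ^ 2 = 1) (hβ : β₁ ^ 2 + β₂ ^ 2 + β₃ ^ 2 = 1)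
    (hαβ : α₁ * β₁ + α₂ * β₂ + α₃ * β₃ = 0) (hκ : 0 < κ) :
    {z ∈ RR α₁ α₂ β₁ β₂ e κ | 0 < z.2.2 ∧ mu α₁ α₂ β₁ β₂ z ≠ 0}.encard
      ≤ (Sol e κ α₃ β₃).encard := by
  let Φ : ℝ → (ℝ × ℝ) × (ℝ × ℝ) := fun θ =>
    ((-(cos θ * α₁ + sin θ * β₁) / (A e α₃ β₃ θ / (κ * sin θ)),
      -(cos θ * α₂ + sin θ * β₂) / (A e α₃ β₃ θ / (κ * sin θ))), (cos θ, sin θ))
  refine (encard_le_encard ?_).trans (encard_image_le Φ _)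
  rintro z ⟨hz, hy, hmu⟩
  obtain ⟨k1, k2, k3, k4⟩ := key hz hα hβ hαβ
  obtain ⟨-, h2, -, -⟩ := hz
  have hx : z.2.1 ^ 2 < 1 := by nlinarith
  have hx1 : -1 < z.2.1 := by nlinarith
  have hx2 : z.2.1 < 1 := by nlinarith
  have hc : cos (arccos z.2.1) = z.2.1 := cos_arccos hx1.le hx2.le
  have hs : sin (arccos z.2.1) = z.2.2 := by
    rw [sin_arccos]
    have : 1 - z.2.1 ^ 2 = z.2.2 ^ 2 := by linarith
    rw [this, sqrt_sq hy.le]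
  have hA : A e α₃ β₃ (arccos z.2.1) = κ * z.2.2 * mu α₁ α₂ β₁ β₂ z := by
    rw [← k4]
    unfold A G g g1 W
    rw [hc, hs]
    ring
  have hG : G α₃ β₃ (arccos z.2.1) = mu α₁ α₂ β₁ β₂ z ^ 2 := by
    rw [k3]
    unfold G g
    rw [hc, hs]
  have hdiv : A e α₃ β₃ (arccos z.2.1) / (κ * z.2.2) = mu α₁ α₂ β₁ β₂ z := by
    rw [hA, mul_div_cancel_left₀ _ (by positivity)]
  refine ⟨arccos z.2.1, ⟨⟨arccos_pos.mpr hx2, ?_⟩, ?_, ?_⟩, ?_⟩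
  · refine lt_of_le_of_ne (arccos_le_pi _) fun h => ?_
    rw [arccos_eq_pi] at h
    linarith
  · rw [hG]; positivity
  · rw [hA, hs, hG]; ring
  · simp only [Φ, hs, hc, hdiv]
    rw [k1, k2, mul_div_cancel_left₀ _ hmu, mul_div_cancel_left₀ _ hmu]

/-- the lower part -/
lemma down_le (hα : α₁ ^ 2 + α₂ ^ 2 + α₃ ^ 2 = 1) (hβ : β₁ ^ 2 + β₂ ^ 2 + β₃ ^ 2 = 1)
    (hαβ : α₁ * β₁ + α₂ * β₂ + α₃ * β₃ = 0) (hκ : 0 < κ) :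
    {z ∈ RR α₁ α₂ β₁ β₂ e κ | z.2.2 < 0 ∧ mu α₁ α₂ β₁ β₂ z ≠ 0}.encard
      ≤ (Sol e κ α₃ (-β₃)).encard := by
  have h := up_le (α₁ := α₁) (α₂ := α₂) (α₃ := α₃) (β₁ := -β₁) (β₂ := -β₂) (β₃ := -β₃) (e := e)
    (κ := κ) hα (by linarith [hβ]) (by linarith) hκ
  refine le_trans ?_ h
  have hinj : Function.Injective
      (fun z : (ℝ × ℝ) × (ℝ × ℝ) => (z.1, (z.2.1, -z.2.2))) := by
    rintro ⟨⟨a, b⟩, ⟨c, d⟩⟩ ⟨⟨a', b'⟩, ⟨c', d'⟩⟩ h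
    simpa [and_assoc] using h
  rw [← hinj.encard_image]
  refine encard_le_encard ?_
  rintro _ ⟨z, ⟨⟨h1, h2, h3, h4⟩, hy, hmu⟩, rfl⟩
  refine ⟨⟨h1, ?_, ?_, ?_⟩, ?_, ?_⟩
  · simp only; linarith
  · simp only; linarith
  · simp only; linarith
  · simp only; linarith
  · intro h
    apply hmu
    unfold mu at h ⊢
    simp only at h
    linarith

/-- the part on the axis -/
lemma axis_le (hα : α₁ ^ 2 + α₂ ^ 2 + α₃ ^ 2 = 1) (hβ : β₁ ^ 2 + β₂ ^ 2 + β₃ ^ 2 = 1)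
    (hαβ : α₁ * β₁ + α₂ * β₂ + α₃ * β₃ = 0) :
    {z ∈ RR α₁ α₂ β₁ β₂ e κ | z.2.2 = 0 ∧ mu α₁ α₂ β₁ β₂ z ≠ 0}.encard ≤ 4 := by
  let Φ : ℝ × ℝ → (ℝ × ℝ) × (ℝ × ℝ) := fun w =>
    ((-(w.1 * α₁) / (w.2 * √(1 - α₃ ^ 2)), -(w.1 * α₂) / (w.2 * √(1 - α₃ ^ 2))), (w.1, 0))
  refine ((encard_le_encard ?_).trans (encard_image_le Φ pm)).trans pm_encard_le
  rintro z ⟨hz, hy, hmu⟩
  obtain ⟨k1, k2, k3, k4⟩ := key hz hα hβ hαβ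
  obtain ⟨-, h2, -, -⟩ := hz
  obtain ⟨⟨cs, sn⟩, ⟨x, y⟩⟩ := z
  simp only at hy h2 k1 k2 k3 k4
  subst hy
  have hx : x ^ 2 = 1 := by linarith
  have hm : mu α₁ α₂ β₁ β₂ ((cs, sn), (x, 0)) ^ 2 = √(1 - α₃ ^ 2) ^ 2 := by
    rw [sq_sqrt (by nlinarith [sq_nonneg α₁, sq_nonneg α₂]), k3]
    linear_combination (-α₃ ^ 2) * hx
  obtain ⟨δ, hδ, hδm⟩ : ∃ δ : ℝ, (δ = 1 ∨ δ = -1) ∧
      mu α₁ α₂ β₁ β₂ ((cs, sn), (x, 0)) = δ * √(1 - α₃ ^ 2) := by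
    rcases sq_eq_sq_iff_eq_or_eq_neg.mp hm with h | h
    · exact ⟨1, Or.inl rfl, by rw [h]; ring⟩
    · exact ⟨-1, Or.inr rfl, by rw [h]; ring⟩
  refine ⟨(x, δ), mem_pm (by simpa using hx) hδ, ?_⟩
  simp only [Φ]
  rw [← hδm]
  have e1 : -(x * α₁) = mu α₁ α₂ β₁ β₂ ((cs, sn), (x, 0)) * cs := by linarith
  have e2 : -(x * α₂) = mu α₁ α₂ β₁ β₂ ((cs, sn), (x, 0)) * sn := by linarith
  rw [e1, e2, mul_div_cancel_left₀ _ hmu, mul_div_cancel_left₀ _ hmu]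


lemma axis_empty (he0 : 0 < e) (he1 : e < 1)
    (hα : α₁ ^ 2 + α₂ ^ 2 + α₃ ^ 2 = 1) (hβ : β₁ ^ 2 + β₂ ^ 2 + β₃ ^ 2 = 1)
    (hαβ : α₁ * β₁ + α₂ * β₂ + α₃ * β₃ = 0) (h : α₃ * β₃ ≠ 0 ∨ α₃ ^ 2 = 1) :
    {z ∈ RR α₁ α₂ β₁ β₂ e κ | z.2.2 = 0 ∧ mu α₁ α₂ β₁ β₂ z ≠ 0} = ∅ := by
  rw [eq_empty_iff_forall_notMem]
  rintro z ⟨hz, hy, hmu⟩
  obtain ⟨k1, k2, k3, k4⟩ := key hz hα hβ hαβ
  obtain ⟨-, h2, -, -⟩ := hz
  obtain ⟨⟨cs, sn⟩, ⟨x, y⟩⟩ := z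
  simp only at hy h2 k1 k2 k3 k4
  subst hy
  have hx : x ^ 2 = 1 := by linarith
  rcases h with h | h
  · have hx1 : -1 ≤ x := by nlinarith
    have hW : 0 < 1 + e * x := by nlinarith
    have : (1 + e * x) ^ 2 * x ^ 2 * (α₃ * β₃) = 0 := by linarith
    rw [hx] at this
    exact h ((mul_eq_zero.mp this).resolve_left (by positivity))
  · apply hmu
    have : mu α₁ α₂ β₁ β₂ ((cs, sn), (x, 0)) ^ 2 = 0 := by
      rw [k3]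
      linear_combination (-α₃ ^ 2) * hx - h
    exact pow_eq_zero_iff (two_ne_zero) |>.mp this

lemma bessel (hα : α₁ ^ 2 + α₂ ^ 2 + α₃ ^ 2 = 1) (hβ : β₁ ^ 2 + β₂ ^ 2 + β₃ ^ 2 = 1)
    (hαβ : α₁ * β₁ + α₂ * β₂ + α₃ * β₃ = 0) : α₃ ^ 2 + β₃ ^ 2 ≤ 1 := by
  have : 1 - (α₃ ^ 2 + β₃ ^ 2) = (α₁ * β₂ - α₂ * β₁) ^ 2 := by
    have h1 : α₁ ^ 2 + α₂ ^ 2 = 1 - α₃ ^ 2 := by linarith
    have h2 : β₁ ^ 2 + β₂ ^ 2 = 1 - β₃ ^ 2 := by linarith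
    have h3 : α₁ * β₁ + α₂ * β₂ = - (α₃ * β₃) := by linarith
    have h4 : (α₁ * β₂ - α₂ * β₁) ^ 2
        = (α₁ ^ 2 + α₂ ^ 2) * (β₁ ^ 2 + β₂ ^ 2) - (α₁ * β₁ + α₂ * β₂) ^ 2 := by ring
    rw [h4, h1, h2, h3]; ring
  nlinarith [sq_nonneg (α₁ * β₂ - α₂ * β₁)]

lemma deg_empty (hα : α₁ ^ 2 + α₂ ^ 2 + α₃ ^ 2 = 1) (hβ : β₁ ^ 2 + β₂ ^ 2 + β₃ ^ 2 = 1)
    (hαβ : α₁ * β₁ + α₂ * β₂ + α₃ * β₃ = 0) (h : α₃ ^ 2 + β₃ ^ 2 < 1) :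
    {z ∈ RR α₁ α₂ β₁ β₂ e κ | mu α₁ α₂ β₁ β₂ z = 0} = ∅ := by
  rw [eq_empty_iff_forall_notMem]
  rintro z ⟨hz, hmu⟩
  obtain ⟨k1, k2, k3, k4⟩ := key hz hα hβ hαβ
  obtain ⟨-, h2, -, -⟩ := hz
  rw [hmu] at k3
  have h5 : (α₃ * z.2.1 + β₃ * z.2.2) ^ 2 + (α₃ * z.2.2 - β₃ * z.2.1) ^ 2 = α₃ ^ 2 + β₃ ^ 2 := by
    linear_combination (α₃ ^ 2 + β₃ ^ 2) * h2
  nlinarith [sq_nonneg (α₃ * z.2.2 - β₃ * z.2.1)]

lemma deg_le (he0 : 0 < e) (he1 : e < 1)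
    (hα : α₁ ^ 2 + α₂ ^ 2 + α₃ ^ 2 = 1) (hβ : β₁ ^ 2 + β₂ ^ 2 + β₃ ^ 2 = 1)
    (hαβ : α₁ * β₁ + α₂ * β₂ + α₃ * β₃ = 0) (h : α₃ ^ 2 + β₃ ^ 2 = 1) :
    {z ∈ RR α₁ α₂ β₁ β₂ e κ | mu α₁ α₂ β₁ β₂ z = 0}.encard ≤ 4 := by
  let a : ℝ → ℝ := fun ε => (ε * β₃) * α₁ - (ε * α₃ + e) * β₁
  let b : ℝ → ℝ := fun ε => (ε * β₃) * α₂ - (ε * α₃ + e) * β₂
  let c : ℝ → ℝ := fun ε => κ * (ε * β₃) / (1 + e * (ε * α₃))
  let Φ : ℝ × ℝ → (ℝ × ℝ) × (ℝ × ℝ) := fun w =>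
    (((a w.1 * c w.1 - b w.1 * (w.2 * √(a w.1 ^ 2 + b w.1 ^ 2 - c w.1 ^ 2))) / (a w.1 ^ 2 + b w.1 ^ 2),
      (b w.1 * c w.1 + a w.1 * (w.2 * √(a w.1 ^ 2 + b w.1 ^ 2 - c w.1 ^ 2))) / (a w.1 ^ 2 + b w.1 ^ 2)),
      (w.1 * α₃, w.1 * β₃))
  refine ((encard_le_encard ?_).trans (encard_image_le Φ pm)).trans pm_encard_le
  rintro z ⟨hz, hmu⟩
  obtain ⟨k1, k2, k3, k4⟩ := key hz hα hβ hαβ
  obtain ⟨h1, h2, -, h4⟩ := hz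
  rw [hmu] at k3
  obtain ⟨⟨cs, sn⟩, ⟨x, y⟩⟩ := z
  simp only at h1 h2 h4 k1 k2 k3 k4
  obtain ⟨ε, hε, hεm⟩ : ∃ ε : ℝ, (ε = 1 ∨ ε = -1) ∧ α₃ * x + β₃ * y = ε := by
    refine ⟨_, ?_, rfl⟩
    have : (α₃ * x + β₃ * y) ^ 2 = 1 := by linarith
    simpa using this
  have hε2 : ε ^ 2 = 1 := by rcases hε with h | h <;> rw [h] <;> norm_num
  have h6 : α₃ * y - β₃ * x = 0 := by
    have : (α₃ * y - β₃ * x) ^ 2 = 0 := by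
      linear_combination (α₃ ^ 2 + β₃ ^ 2) * h2 + h - k3
    exact pow_eq_zero_iff (two_ne_zero) |>.mp this
  have hxe : x = ε * α₃ := by
    linear_combination (-x) * h + α₃ * hεm - β₃ * h6
  have hye : y = ε * β₃ := by
    linear_combination (-y) * h + β₃ * hεm + α₃ * h6
  subst hxe hye
  have hW : 0 < 1 + e * (ε * α₃) := by
    have h7 : (ε * α₃) ^ 2 ≤ 1 := by
      have : (ε * α₃) ^ 2 = α₃ ^ 2 := by rw [mul_pow, hε2, one_mul]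
      rw [this]; nlinarith [sq_nonneg β₃]
    nlinarith [abs_le_of_sq_le_sq' (by linarith : (ε * α₃) ^ 2 ≤ 1 ^ 2) (by norm_num)]
  have hab : a ε ^ 2 + b ε ^ 2 = (1 + e * (ε * α₃)) ^ 2 := by
    simp only [a, b]
    linear_combination (ε * β₃) ^ 2 * hα + (ε * α₃ + e) ^ 2 * hβ
      - 2 * (ε * β₃) * (ε * α₃ + e) * hαβ + (α₃ ^ 2 + β₃ ^ 2 - e ^ 2 * α₃ ^ 2) * hε2
      + (1 - e ^ 2) * h
  have hab0 : a ε ^ 2 + b ε ^ 2 ≠ 0 := by rw [hab]; positivity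
  have hc : cs * a ε + sn * b ε = c ε := by
    simp only [c]
    rw [eq_div_iff hW.ne']
    simp only [a, b]
    linarith
  have hm : (-b ε * cs + a ε * sn) ^ 2 = √(a ε ^ 2 + b ε ^ 2 - c ε ^ 2) ^ 2 := by
    have h8 : a ε ^ 2 + b ε ^ 2 - c ε ^ 2 = (-b ε * cs + a ε * sn) ^ 2 := by
      rw [← hc]
      linear_combination (-(a ε ^ 2 + b ε ^ 2)) * h1
    rw [sq_sqrt (by rw [h8]; positivity), h8]
  obtain ⟨δ, hδ, hδm⟩ : ∃ δ : ℝ, (δ = 1 ∨ δ = -1) ∧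
      -b ε * cs + a ε * sn = δ * √(a ε ^ 2 + b ε ^ 2 - c ε ^ 2) := by
    rcases sq_eq_sq_iff_eq_or_eq_neg.mp hm with h | h
    · exact ⟨1, Or.inl rfl, by rw [h]; ring⟩
    · exact ⟨-1, Or.inr rfl, by rw [h]; ring⟩
  refine ⟨(ε, δ), mem_pm hε hδ, ?_⟩
  simp only [Φ]
  rw [← hδm, ← hc]
  congr 1
  congr 1
  · rw [div_eq_iff hab0]; ring
  · rw [div_eq_iff hab0]; ring


lemma sum_lt {k l : ℝ} (he0 : 0 < e) (he1 : e < 1) (hκ : 0 < κ) (hkl : k * l ≠ 0)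
    (h : k ^ 2 + l ^ 2 < 1) :
    (Sol e κ k l).encard + (Sol e κ k (-l)).encard ≤ 10 := by
  have hk0 : k ≠ 0 := left_ne_zero_of_mul hkl
  have hl0 : l ≠ 0 := right_ne_zero_of_mul hkl
  have key : ∀ k l : ℝ, 0 < k → 0 < l → k ^ 2 + l ^ 2 < 1 →
      (Sol e κ k l).encard ≤ 4 ∧ (Sol e κ k (-l)).encard ≤ 6 := fun k l hk hl h =>
    ⟨Sol_pos he0 he1 hk hl h, Sol_neg' he0 he1 hκ hk (by linarith) (by linarith [h, neg_sq l])⟩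
  have e46 : (4 : ℕ∞) + 6 = 10 := by norm_num
  have e64 : (6 : ℕ∞) + 4 = 10 := by norm_num
  rcases lt_or_gt_of_ne hk0 with hk | hk <;> rcases lt_or_gt_of_ne hl0 with hl | hl
  · obtain ⟨a, b⟩ := key (-k) (-l) (by linarith) (by linarith) (by linarith [neg_sq k, neg_sq l])
    rw [Sol_neg] at a
    rw [Sol_neg] at b
    exact (add_le_add a b).trans e46.le
  · obtain ⟨a, b⟩ := key (-k) l (by linarith) hl (by linarith [neg_sq k])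
    rw [Sol_neg] at b
    rw [← Sol_neg, neg_neg] at a
    exact (add_le_add b a).trans e64.le
  · obtain ⟨a, b⟩ := key k (-l) hk (by linarith) (by linarith [neg_sq l])
    rw [neg_neg] at b
    exact (add_le_add b a).trans e64.le
  · obtain ⟨a, b⟩ := key k l hk hl h
    exact (add_le_add a b).trans e46.le

lemma sum_one {k l : ℝ} (he0 : 0 < e) (he1 : e < 1) (hκ : 0 < κ) (hkl : k * l ≠ 0)
    (h : k ^ 2 + l ^ 2 = 1) :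
    (Sol e κ k l).encard + (Sol e κ k (-l)).encard ≤ 6 := by
  have hk0 : k ≠ 0 := left_ne_zero_of_mul hkl
  have hl0 : l ≠ 0 := right_ne_zero_of_mul hkl
  have key : ∀ k l : ℝ, 0 < k → 0 < l → k ^ 2 + l ^ 2 = 1 →
      (Sol e κ k l).encard ≤ 2 ∧ (Sol e κ k (-l)).encard ≤ 4 := fun k l hk hl h =>
    ⟨Sol_one_pos he0 he1 hk hl h, Sol_one_neg he0 he1 hκ hk (by linarith) (by linarith [h, neg_sq l])⟩
  have e24 : (2 : ℕ∞) + 4 = 6 := by norm_num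
  have e42 : (4 : ℕ∞) + 2 = 6 := by norm_num
  rcases lt_or_gt_of_ne hk0 with hk | hk <;> rcases lt_or_gt_of_ne hl0 with hl | hl
  · obtain ⟨a, b⟩ := key (-k) (-l) (by linarith) (by linarith) (by linarith [neg_sq k, neg_sq l])
    rw [Sol_neg] at a
    rw [Sol_neg] at b
    exact (add_le_add a b).trans e24.le
  · obtain ⟨a, b⟩ := key (-k) l (by linarith) hl (by linarith [neg_sq k])
    rw [Sol_neg] at b
    rw [← Sol_neg, neg_neg] at a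
    exact (add_le_add b a).trans e42.le
  · obtain ⟨a, b⟩ := key k (-l) hk (by linarith) (by linarith [neg_sq l])
    rw [neg_neg] at b
    exact (add_le_add b a).trans e42.le
  · obtain ⟨a, b⟩ := key k l hk hl h
    exact (add_le_add a b).trans e24.le

theorem RR_encard_le (he0 : 0 < e) (he1 : e < 1) (hκ : 0 < κ)
    (hα : α₁ ^ 2 + α₂ ^ 2 + α₃ ^ 2 = 1) (hβ : β₁ ^ 2 + β₂ ^ 2 + β₃ ^ 2 = 1)
    (hαβ : α₁ * β₁ + α₂ * β₂ + α₃ * β₃ = 0) : (RR α₁ α₂ β₁ β₂ e κ).encard ≤ 10 := by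
  have hsub : RR α₁ α₂ β₁ β₂ e κ ⊆
      ({z ∈ RR α₁ α₂ β₁ β₂ e κ | 0 < z.2.2 ∧ mu α₁ α₂ β₁ β₂ z ≠ 0}
      ∪ {z ∈ RR α₁ α₂ β₁ β₂ e κ | z.2.2 < 0 ∧ mu α₁ α₂ β₁ β₂ z ≠ 0})
      ∪ ({z ∈ RR α₁ α₂ β₁ β₂ e κ | z.2.2 = 0 ∧ mu α₁ α₂ β₁ β₂ z ≠ 0}
      ∪ {z ∈ RR α₁ α₂ β₁ β₂ e κ | mu α₁ α₂ β₁ β₂ z = 0}) := by
    intro z hz
    by_cases hm : mu α₁ α₂ β₁ β₂ z = 0
    · exact Or.inr (Or.inr ⟨hz, hm⟩)
    · rcases lt_trichotomy z.2.2 0 with h | h | h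
      · exact Or.inl (Or.inr ⟨hz, h, hm⟩)
      · exact Or.inr (Or.inl ⟨hz, h, hm⟩)
      · exact Or.inl (Or.inl ⟨hz, h, hm⟩)
  have hS : (RR α₁ α₂ β₁ β₂ e κ).encard ≤
      ((Sol e κ α₃ β₃).encard + (Sol e κ α₃ (-β₃)).encard) +
      ({z ∈ RR α₁ α₂ β₁ β₂ e κ | z.2.2 = 0 ∧ mu α₁ α₂ β₁ β₂ z ≠ 0}.encard
      + {z ∈ RR α₁ α₂ β₁ β₂ e κ | mu α₁ α₂ β₁ β₂ z = 0}.encard) := by
    refine (encard_le_encard hsub).trans ((encard_union_le _ _).trans (add_le_add ?_ ?_))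
    · exact (encard_union_le _ _).trans (add_le_add (up_le hα hβ hαβ hκ) (down_le hα hβ hαβ hκ))
    · exact encard_union_le _ _
  refine hS.trans ?_
  have hax := axis_le (e := e) (κ := κ) hα hβ hαβ
  have hb := bessel hα hβ hαβ
  by_cases hkl : α₃ * β₃ = 0
  · rcases mul_eq_zero.mp hkl with h0 | h0
    · -- `α₃ = 0`
      subst h0
      by_cases hl0 : β₃ = 0
      · subst hl0
        have s1 := Sol_l_zero (k := 0) he0 he1 hκ (by norm_num)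
        rw [deg_empty hα hβ hαβ (by norm_num), encard_empty, neg_zero]
        refine (add_le_add (add_le_add s1 s1) (add_le_add hax le_rfl)).trans ?_
        norm_num
      · rcases lt_or_eq_of_le hb with h1 | h1
        · have s1 := Sol_k_zero (l := β₃) he0 he1 hκ (by linarith) hl0
          have s2 := Sol_k_zero (l := -β₃) he0 he1 hκ (by linarith [neg_sq β₃]) (by simpa using hl0)
          rw [deg_empty hα hβ hαβ h1, encard_empty]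
          refine (add_le_add (add_le_add s1 s2) (add_le_add hax le_rfl)).trans ?_
          norm_num
        · have s1 := Sol_k_zero_one (l := β₃) he0 he1 hκ (by linarith)
          have s2 := Sol_k_zero_one (l := -β₃) he0 he1 hκ (by linarith [neg_sq β₃])
          refine (add_le_add (add_le_add s1 s2)
            (add_le_add hax (deg_le he0 he1 hα hβ hαβ h1))).trans ?_
          norm_num
    · subst h0
      have s1 := Sol_l_zero (k := α₃) he0 he1 hκ (by linarith)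
      rw [neg_zero]
      rcases lt_or_eq_of_le hb with h1 | h1
      · rw [deg_empty hα hβ hαβ h1, encard_empty]
        refine (add_le_add (add_le_add s1 s1) (add_le_add hax le_rfl)).trans ?_
        norm_num
      · rw [axis_empty he0 he1 hα hβ hαβ (Or.inr (by linarith)), encard_empty]
        refine (add_le_add (add_le_add s1 s1)
            (add_le_add le_rfl (deg_le he0 he1 hα hβ hαβ h1))).trans ?_
        norm_num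
  · rw [axis_empty he0 he1 hα hβ hαβ (Or.inl hkl), encard_empty]
    rcases lt_or_eq_of_le hb with h1 | h1
    · rw [deg_empty hα hβ hαβ h1, encard_empty]
      have := sum_lt he0 he1 hκ hkl h1
      simpa using this
    · refine (add_le_add (sum_one he0 he1 hκ hkl h1)
            (add_le_add le_rfl (deg_le he0 he1 hα hβ hαβ h1))).trans ?_
      norm_num

end Pool.Agent.Y658.CE
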