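import Pool.Agent.Y658.CE.Generic

/-!
# Number of solutions, all cases

`Sol e κ k l` is the set of the true anomalies `θ ∈ (0, π)` of the points of the ellipse which
belong to a stationary point and whose projection to the plane of the circle is not the centre.
-/

set_option autoImplicit false

namespace Pool.Agent.Y658.CE

open Real Set

/-- solutions `θ ∈ (0, π)` -/
def Sol (e κ k l : ℝ) : Set ℝ :=
  {θ | θ ∈ Ioo 0 π ∧ G k l θ ≠ 0 ∧ A e k l θ ^ 2 = κ ^ 2 * sin θ ^ 2 * G k l θ}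

lemma Sol_neg (e κ k l : ℝ) : Sol e κ (-k) (-l) = Sol e κ k l := by
  have hg : ∀ θ, g (-k) (-l) θ = - g k l θ := fun θ => by unfold g; ring
  have hg1 : ∀ θ, g1 (-k) (-l) θ = - g1 k l θ := fun θ => by unfold g1; ring
  have hG : ∀ θ, G (-k) (-l) θ = G k l θ := fun θ => by unfold G; rw [hg]; ring
  have hA : ∀ θ, A e (-k) (-l) θ = A e k l θ := fun θ => by unfold A; rw [hg, hg1, hG]; ring
  unfold Sol
  simp only [hG, hA]

variable {e k l κ : ℝ}

/-! ### Generic case -/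

lemma Sol_subset (hkl : k ^ 2 + l ^ 2 < 1) :
    Sol e κ k l ⊆ {θ | θ ∈ Ioo 0 π ∧ H e k l θ = κ} ∪ {θ | θ ∈ Ioo 0 π ∧ H e k l θ = -κ} := by
  rintro θ ⟨h1, -, h3⟩
  have hs := sin_pos' h1
  have hG := G_pos hkl θ
  have hD := Real.sqrt_pos.mpr hG
  have hDD := Real.sq_sqrt hG.le
  have h4 : H e k l θ ^ 2 = κ ^ 2 := by
    unfold H
    rw [div_pow, h3, mul_pow, hDD]
    field_simp
  rcases sq_eq_sq_iff_eq_or_eq_neg.mp h4 with h | h
  · exact Or.inl ⟨h1, h⟩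
  · exact Or.inr ⟨h1, h⟩

theorem Sol_pos (he0 : 0 < e) (he1 : e < 1) (hk : 0 < k) (hl : 0 < l)
    (hkl : k ^ 2 + l ^ 2 < 1) : (Sol e κ k l).encard ≤ 4 := by
  refine (Set.encard_le_encard (Sol_subset hkl)).trans ((Set.encard_union_le _ _).trans ?_)
  calc _ ≤ (2 : ℕ∞) + 2 := add_le_add (count_one he0 he1 hk hl hkl _) (count_one he0 he1 hk hl hkl _)
    _ = 4 := by norm_num

theorem Sol_neg' (he0 : 0 < e) (he1 : e < 1) (hκ : 0 < κ) (hk : 0 < k) (hl : l < 0)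
    (hkl : k ^ 2 + l ^ 2 < 1) : (Sol e κ k l).encard ≤ 6 := by
  refine (Set.encard_le_encard (Sol_subset hkl)).trans ((Set.encard_union_le _ _).trans ?_)
  calc _ ≤ (4 : ℕ∞) + 2 := add_le_add (count_four he0 he1 hk hl hkl _)
        (count_two_neg he0 he1 hk hl hkl (by linarith))
    _ = 6 := by norm_num

/-! ### Case `k² + l² = 1` -/

/-- `B = W (g + e k)` -/
noncomputable def B (e k l θ : ℝ) : ℝ := W e θ * (g k l θ + e * k)

/-- numerator of the derivative of `B / sin` -/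
noncomputable def L (e k l θ : ℝ) : ℝ :=
  -k * (1 + e ^ 2 + e * (cos θ * (3 - cos θ ^ 2))) - l * e * sin θ ^ 3

lemma hd_L (e k l θ : ℝ) : HasDerivAt (L e k l) (-(3 * e * sin θ ^ 2 * g1 k l θ)) θ := by
  have hS := Real.hasDerivAt_sin θ
  have hC := Real.hasDerivAt_cos θ
  have h1 := ((((hC.mul ((hC.pow 2).const_sub 3)).const_mul e).const_add (1 + e ^ 2)).const_mul
    (-k)).sub ((hS.pow 3).const_mul (l * e))
  convert! h1 using 1
  simp only [Nat.cast_ofNat, Pi.pow_apply]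
  have h2 := Real.sin_sq_add_cos_sq θ
  unfold g1
  linear_combination (3 * k * e * sin θ) * h2

lemma hd_B (e k l : ℝ) {θ : ℝ} (hs : sin θ ≠ 0) : HasDerivAt (fun θ => B e k l θ / sin θ)
    (-(1 / sin θ ^ 2 * (-L e k l θ))) θ := by
  have hS := Real.hasDerivAt_sin θ
  have h1 := ((hd_W e θ).mul ((hd_g k l θ).add_const (e * k))).div hS hs
  convert! h1 using 1
  simp only [Pi.mul_apply]
  have h2 := Real.sin_sq_add_cos_sq θ
  unfold L g g1 W
  field_simp
  linear_combination (2 * (cos θ * e * k) + e ^ 2 * k + k) * h2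

lemma A_eq_B (h1 : k ^ 2 + l ^ 2 = 1) (θ : ℝ) : A e k l θ = - g1 k l θ * B e k l θ := by
  have h2 := g_sq_add k l θ
  have h3 := k_eq k l θ
  unfold A B G
  unfold W at *
  have : 1 - g k l θ ^ 2 = g1 k l θ ^ 2 := by linarith
  rw [this]
  linear_combination (-(1 + e * cos θ) * g1 k l θ * e) * h3

lemma Sol_subset' (h1 : k ^ 2 + l ^ 2 = 1) :
    Sol e κ k l ⊆ {θ | θ ∈ Ioo 0 π ∧ B e k l θ / sin θ = κ}
      ∪ {θ | θ ∈ Ioo 0 π ∧ B e k l θ / sin θ = -κ} := by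
  rintro θ ⟨h2, h3, h4⟩
  have hs := sin_pos' h2
  have h5 := g_sq_add k l θ
  have h6 : G k l θ = g1 k l θ ^ 2 := by unfold G; linarith
  rw [h6] at h3 h4
  rw [A_eq_B h1] at h4
  have h7 : B e k l θ ^ 2 = κ ^ 2 * sin θ ^ 2 := by
    have : g1 k l θ ^ 2 * (B e k l θ ^ 2 - κ ^ 2 * sin θ ^ 2) = 0 := by linear_combination h4
    have := (mul_eq_zero.mp this).resolve_left h3
    linarith
  have h8 : (B e k l θ / sin θ) ^ 2 = κ ^ 2 := by
    rw [div_pow, h7]
    field_simp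
  rcases sq_eq_sq_iff_eq_or_eq_neg.mp h8 with h | h
  · exact Or.inl ⟨h2, h⟩
  · exact Or.inr ⟨h2, h⟩

lemma cube_bound (θ : ℝ) : -2 ≤ cos θ * (3 - cos θ ^ 2) := by
  have h1 := Real.neg_one_le_cos θ
  have h2 := Real.cos_le_one θ
  nlinarith [mul_nonneg (by linarith : (0:ℝ) ≤ cos θ + 1) (mul_nonneg (by linarith : (0:ℝ) ≤ cos θ + 1) (by linarith : (0:ℝ) ≤ 2 - cos θ))]

lemma count_B_one (he0 : 0 < e) (he1 : e < 1) (hk : 0 < k) (hl : 0 ≤ l) (c : ℝ) :
    {θ | θ ∈ Ioo 0 π ∧ B e k l θ / sin θ = c}.encard ≤ 1 := by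
  refine encard_le_of_no_chain (n := 1) fun f hf hfS => ?_
  have h01 : f 0 < f 1 := hf (by decide)
  have hsub : ∀ z ∈ Icc (f 0) (f 1), z ∈ Ioo 0 π := fun z hz =>
    ⟨(hfS 0).1.1.trans_le hz.1, hz.2.trans_lt (hfS 1).1.2⟩
  have hL : ∀ z ∈ Ioo 0 π, L e k l z < 0 := by
    intro z hz
    have h1 := cube_bound z
    have hs := sin_pos' hz
    unfold L
    have h2 : 0 ≤ l * e * sin z ^ 3 := by positivity
    have h3 : 0 < 1 + e ^ 2 + e * (cos z * (3 - cos z ^ 2)) := by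
      nlinarith [mul_le_mul_of_nonneg_left h1 he0.le, mul_pos (sub_pos.mpr he1) (sub_pos.mpr he1)]
    nlinarith [mul_pos hk h3]
  obtain ⟨⟨y, hy, hy1⟩, -⟩ := gap (h := fun θ => B e k l θ / sin θ) h01
    (fun z hz => hd_B e k l (sin_pos' (hsub z hz)).ne')
    (fun z hz => by have := sin_pos' (hsub z hz); positivity) ((hfS 0).2.trans (hfS 1).2.symm)
    (by
      intro h
      have h1 := h ((f 0 + f 1) / 2) ⟨by linarith, by linarith⟩
      have h2 := hL ((f 0 + f 1) / 2) (hsub _ ⟨by linarith, by linarith⟩)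
      linarith)
  have := hL y (hsub y (Ioo_subset_Icc_self hy))
  linarith

lemma count_B_pos (he0 : 0 < e) (he1 : e < 1) (hk : 0 < k) {c : ℝ} (hc : 0 < c) :
    {θ | θ ∈ Ioo 0 π ∧ B e k l θ / sin θ = c}.encard ≤ 1 := by
  refine encard_le_of_no_chain (n := 1) fun f hf hfS => ?_
  have h01 : f 0 < f 1 := hf (by decide)
  have hsub : ∀ z ∈ Icc (f 0) (f 1), z ∈ Ioo 0 π := fun z hz =>
    ⟨(hfS 0).1.1.trans_le hz.1, hz.2.trans_lt (hfS 1).1.2⟩
  -- the factor `(g + e k) / sin` is strictly decreasing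
  have hder : ∀ z ∈ Ioo 0 π, HasDerivAt (fun θ => (g k l θ + e * k) / sin θ)
      (-(k * W e z / sin z ^ 2)) z := by
    intro z hz
    have hs := (sin_pos' hz).ne'
    have h1 := ((hd_g k l z).add_const (e * k)).div (Real.hasDerivAt_sin z) hs
    convert! h1 using 1
    have h2 := Real.sin_sq_add_cos_sq z
    unfold g g1 W
    field_simp
    linear_combination k * h2
  have hanti : (g k l (f 1) + e * k) / sin (f 1) < (g k l (f 0) + e * k) / sin (f 0) := by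
    refine strictAntiOn_of_deriv_neg (convex_Icc (f 0) (f 1))
      (fun z hz => (hder z (hsub z hz)).continuousAt.continuousWithinAt) ?_
      (left_mem_Icc.mpr h01.le) (right_mem_Icc.mpr h01.le) h01
    rw [interior_Icc]
    intro z hz
    rw [(hder z (hsub z (Ioo_subset_Icc_self hz))).deriv]
    have hs := sin_pos' (hsub z (Ioo_subset_Icc_self hz))
    have hW := W_pos he0 he1 z
    have : 0 < k * W e z / sin z ^ 2 := by positivity
    linarith
  have hWlt : W e (f 1) < W e (f 0) := by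
    unfold W
    have := Real.cos_lt_cos_of_nonneg_of_le_pi (hfS 0).1.1.le (hfS 1).1.2.le h01
    nlinarith
  have hW1 := W_pos he0 he1 (f 1)
  have hW0 := W_pos he0 he1 (f 0)
  have e0 : W e (f 0) * ((g k l (f 0) + e * k) / sin (f 0)) = c := by
    have := (hfS 0).2
    unfold B at this
    rw [← this]; ring
  have e1 : W e (f 1) * ((g k l (f 1) + e * k) / sin (f 1)) = c := by
    have := (hfS 1).2
    unfold B at this
    rw [← this]; ring
  set a := (g k l (f 0) + e * k) / sin (f 0)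
  set b := (g k l (f 1) + e * k) / sin (f 1)
  have hb : 0 < b := by
    by_contra h
    push Not at h
    nlinarith [mul_nonneg hW1.le (neg_nonneg.mpr h)]
  nlinarith [mul_pos hW0 (sub_pos.mpr hanti), mul_pos hb (sub_pos.mpr hWlt)]

lemma count_B_three (he0 : 0 < e) (hk : 0 < k) (hl : l < 0) (c : ℝ) :
    {θ | θ ∈ Ioo 0 π ∧ B e k l θ / sin θ = c}.encard ≤ 3 := by
  refine encard_le_of_no_chain (n := 3) fun f hf hfS => ?_
  have hlt : ∀ i j : Fin 4, i < j → f i < f j := fun i j h => hf h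
  have hLz : ∀ x y : ℝ, x ∈ Ioo 0 π → y ∈ Ioo 0 π → x < y → ¬ ∀ z ∈ Ioo x y, -L e k l z = 0 := by
    intro x y hx hy hxy h
    have hg1 : ∀ z ∈ Ioo x y, g1 k l z = 0 := by
      intro z hz
      have hev : L e k l =ᶠ[nhds z] fun _ => 0 := by
        filter_upwards [Ioo_mem_nhds hz.1 hz.2] with u hu
        have := h u hu
        linarith
      have h2 := (hd_L e k l z).unique ((hasDerivAt_const z (0 : ℝ)).congr_of_eventuallyEq hev)
      have hs := sin_pos' ⟨hx.1.trans hz.1, hz.2.trans hy.2⟩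
      have h3 : (3 * e * sin z ^ 2) * g1 k l z = 0 := by linarith
      exact (mul_eq_zero.mp h3).resolve_left (by positivity)
    have a1 : (2 * x + y) / 3 ∈ Ioo x y := ⟨by linarith, by linarith⟩
    have a2 : (x + 2 * y) / 3 ∈ Ioo x y := ⟨by linarith, by linarith⟩
    have := g1_pos_later (k := k) hl (x := (2 * x + y) / 3) (y := (x + 2 * y) / 3)
      ⟨hx.1.trans a1.1, a1.2.trans hy.2⟩ ⟨hx.1.trans a2.1, a2.2.trans hy.2⟩ (by linarith)
      (hg1 _ a1).ge
    rw [hg1 _ a2] at this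
    exact lt_irrefl _ this
  have hgap : ∀ i j : Fin 4, i < j → (∃ z ∈ Ioo (f i) (f j), -L e k l z < 0) ∧
      ∃ z ∈ Ioo (f i) (f j), 0 < -L e k l z := by
    intro i j hij
    have hsub : ∀ z ∈ Icc (f i) (f j), z ∈ Ioo 0 π := fun z hz =>
      ⟨(hfS i).1.1.trans_le hz.1, hz.2.trans_lt (hfS j).1.2⟩
    exact gap (h := fun θ => B e k l θ / sin θ) (hlt i j hij)
      (fun z hz => hd_B e k l (sin_pos' (hsub z hz)).ne')
      (fun z hz => by have := sin_pos' (hsub z hz); positivity) ((hfS i).2.trans (hfS j).2.symm)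
      (hLz _ _ (hfS i).1 (hfS j).1 (hlt i j hij))
  obtain ⟨⟨y1, hy1, hn1⟩, -⟩ := hgap 0 1 (by decide)
  obtain ⟨-, y2, hy2, hn2⟩ := hgap 1 2 (by decide)
  obtain ⟨⟨y3, hy3, hn3⟩, -⟩ := hgap 2 3 (by decide)
  have m1 : y1 ∈ Ioo 0 π := ⟨(hfS 0).1.1.trans hy1.1, hy1.2.trans (hfS 1).1.2⟩
  have m2 : y2 ∈ Ioo 0 π := ⟨(hfS 1).1.1.trans hy2.1, hy2.2.trans (hfS 2).1.2⟩
  have m3 : y3 ∈ Ioo 0 π := ⟨(hfS 2).1.1.trans hy3.1, hy3.2.trans (hfS 3).1.2⟩
  have h12 : y1 < y2 := hy1.2.trans hy2.1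
  have h23 : y2 < y3 := hy2.2.trans hy3.1
  rcases le_total (g1 k l y2) 0 with h | h
  · -- increasing on [y1, y2]
    have : L e k l y1 < L e k l y2 := by
      refine strictMonoOn_of_deriv_pos (convex_Icc y1 y2)
        (fun z hz => (hd_L e k l z).continuousAt.continuousWithinAt) ?_
        (left_mem_Icc.mpr h12.le) (right_mem_Icc.mpr h12.le) h12
      rw [interior_Icc]
      intro z hz
      rw [(hd_L e k l z).deriv]
      have hz' : z ∈ Ioo 0 π := ⟨m1.1.trans hz.1, hz.2.trans m2.2⟩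
      have hs := sin_pos' hz'
      have h2 := g1_neg_earlier (k := k) hl hz' m2 hz.2 h
      have h3 : 0 < 3 * e * sin z ^ 2 := by positivity
      nlinarith [mul_pos h3 (neg_pos.mpr h2)]
    linarith
  · have : L e k l y3 < L e k l y2 := by
      refine strictAntiOn_of_deriv_neg (convex_Icc y2 y3)
        (fun z hz => (hd_L e k l z).continuousAt.continuousWithinAt) ?_
        (left_mem_Icc.mpr h23.le) (right_mem_Icc.mpr h23.le) h23
      rw [interior_Icc]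
      intro z hz
      rw [(hd_L e k l z).deriv]
      have hz' : z ∈ Ioo 0 π := ⟨m2.1.trans hz.1, hz.2.trans m3.2⟩
      have hs := sin_pos' hz'
      have h2 := g1_pos_later (k := k) hl m2 hz' hz.1 h
      have h3 : 0 < 3 * e * sin z ^ 2 := by positivity
      nlinarith [mul_pos h3 h2]
    linarith

theorem Sol_one_pos (he0 : 0 < e) (he1 : e < 1) (hk : 0 < k) (hl : 0 < l)
    (hkl : k ^ 2 + l ^ 2 = 1) : (Sol e κ k l).encard ≤ 2 := by
  refine (Set.encard_le_encard (Sol_subset' hkl)).trans ((Set.encard_union_le _ _).trans ?_)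
  calc _ ≤ (1 : ℕ∞) + 1 := add_le_add (count_B_one he0 he1 hk hl.le _)
        (count_B_one he0 he1 hk hl.le _)
    _ = 2 := by norm_num

theorem Sol_one_neg (he0 : 0 < e) (he1 : e < 1) (hκ : 0 < κ) (hk : 0 < k) (hl : l < 0)
    (hkl : k ^ 2 + l ^ 2 = 1) : (Sol e κ k l).encard ≤ 4 := by
  refine (Set.encard_le_encard (Sol_subset' hkl)).trans ((Set.encard_union_le _ _).trans ?_)
  calc _ ≤ (1 : ℕ∞) + 3 := add_le_add (count_B_pos he0 he1 hk hκ) (count_B_three he0 hk hl _)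
    _ = 4 := by norm_num

/-! ### Case `k l = 0` -/

/-- Vieta for a quartic with four distinct roots -/
lemma quartic_roots {a4 a3 a2 a1 a0 : ℝ} {c : Fin 4 → ℝ} (hc : StrictMono c)
    (h : ∀ i, a4 * c i ^ 4 + a3 * c i ^ 3 + a2 * c i ^ 2 + a1 * c i + a0 = 0) :
    a4 * (c 0 + c 1 + c 2 + c 3) + a3 = 0 ∧ ∀ t : ℝ,
      a4 * t ^ 4 + a3 * t ^ 3 + a2 * t ^ 2 + a1 * t + a0
        = a4 * ((t - c 0) * (t - c 1) * (t - c 2) * (t - c 3)) := by
  have n01 : c 0 - c 1 ≠ 0 := sub_ne_zero.mpr (hc (by decide : (0 : Fin 4) < 1)).ne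
  have n12 : c 1 - c 2 ≠ 0 := sub_ne_zero.mpr (hc (by decide : (1 : Fin 4) < 2)).ne
  have n23 : c 2 - c 3 ≠ 0 := sub_ne_zero.mpr (hc (by decide : (2 : Fin 4) < 3)).ne
  have n02 : c 0 - c 2 ≠ 0 := sub_ne_zero.mpr (hc (by decide : (0 : Fin 4) < 2)).ne
  have n13 : c 1 - c 3 ≠ 0 := sub_ne_zero.mpr (hc (by decide : (1 : Fin 4) < 3)).ne
  have n03 : c 0 - c 3 ≠ 0 := sub_ne_zero.mpr (hc (by decide : (0 : Fin 4) < 3)).ne
  have h0 := h 0
  have h1 := h 1
  have h2 := h 2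
  have h3 := h 3
  generalize c 0 = x at *
  generalize c 1 = y at *
  generalize c 2 = z at *
  generalize c 3 = w at *
  have d01 : a4 * (x ^ 3 + x ^ 2 * y + x * y ^ 2 + y ^ 3) + a3 * (x ^ 2 + x * y + y ^ 2)
      + a2 * (x + y) + a1 = 0 :=
    (mul_eq_zero.mp (by linear_combination h0 - h1 : (x - y) * _ = 0)).resolve_left n01
  have d12 : a4 * (y ^ 3 + y ^ 2 * z + y * z ^ 2 + z ^ 3) + a3 * (y ^ 2 + y * z + z ^ 2)
      + a2 * (y + z) + a1 = 0 :=
    (mul_eq_zero.mp (by linear_combination h1 - h2 : (y - z) * _ = 0)).resolve_left n12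
  have d23 : a4 * (z ^ 3 + z ^ 2 * w + z * w ^ 2 + w ^ 3) + a3 * (z ^ 2 + z * w + w ^ 2)
      + a2 * (z + w) + a1 = 0 :=
    (mul_eq_zero.mp (by linear_combination h2 - h3 : (z - w) * _ = 0)).resolve_left n23
  have d012 : a4 * (x ^ 2 + y ^ 2 + z ^ 2 + x * y + x * z + y * z) + a3 * (x + y + z) + a2 = 0 :=
    (mul_eq_zero.mp (by linear_combination d01 - d12 : (x - z) * _ = 0)).resolve_left n02
  have d123 : a4 * (y ^ 2 + z ^ 2 + w ^ 2 + y * z + y * w + z * w) + a3 * (y + z + w) + a2 = 0 :=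
    (mul_eq_zero.mp (by linear_combination d12 - d23 : (y - w) * _ = 0)).resolve_left n13
  have d : a4 * (x + y + z + w) + a3 = 0 :=
    (mul_eq_zero.mp (by linear_combination d012 - d123 : (x - w) * _ = 0)).resolve_left n03
  refine ⟨d, fun t => ?_⟩
  linear_combination h0 + (t - x) * d01 + (t - x) * (t - y) * d012 + (t - x) * (t - y) * (t - z) * d

/-- transfer to `c = cos θ` -/
lemma chain_cos {S : Set ℝ} (hS : S ⊆ Ioo 0 π) {n : ℕ}
    (h : ∀ c : Fin (n + 1) → ℝ, StrictMono c → (∀ i, ∃ θ ∈ S, cos θ = c i) → False) :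
    S.encard ≤ n := by
  have hinj : InjOn cos S := fun x hx y hy hxy =>
    Real.injOn_cos ⟨(hS hx).1.le, (hS hx).2.le⟩ ⟨(hS hy).1.le, (hS hy).2.le⟩ hxy
  rw [← hinj.encard_image]
  exact encard_le_of_no_chain fun f hf hfS => h f hf fun i => hfS i

theorem Sol_l_zero (he0 : 0 < e) (he1 : e < 1) (hκ : 0 < κ) (hk : k ^ 2 ≤ 1) :
    (Sol e κ k 0).encard ≤ 3 := by
  refine chain_cos (fun θ h => h.1) fun c hc hcS => ?_
  have hroot : ∀ i, ((1 + e * c i) * (e + k ^ 2 * c i)) ^ 2 = κ ^ 2 * (1 - k ^ 2 * c i ^ 2)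
      ∧ -1 < c i ∧ c i < 1 := by
    intro i
    obtain ⟨θ, ⟨h1, -, h3⟩, h4⟩ := hcS i
    have hs := sin_pos' h1
    have hsc := Real.sin_sq_add_cos_sq θ
    have hA : A e k 0 θ = sin θ * ((1 + e * c i) * (e + k ^ 2 * c i)) := by
      unfold A G g g1 W
      rw [h4]
      ring
    have hGe : G k 0 θ = 1 - k ^ 2 * c i ^ 2 := by
      unfold G g
      rw [h4]; ring
    rw [hA, hGe] at h3
    refine ⟨?_, ?_, ?_⟩
    · have : sin θ ^ 2 * (((1 + e * c i) * (e + k ^ 2 * c i)) ^ 2 - κ ^ 2 * (1 - k ^ 2 * c i ^ 2)) = 0 := by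
        linear_combination h3
      have := (mul_eq_zero.mp this).resolve_left (by positivity)
      linarith
    · rw [← h4]; nlinarith [sq_nonneg (cos θ), hs, mul_pos hs hs]
    · rw [← h4]; nlinarith [sq_nonneg (cos θ), hs, mul_pos hs hs]
  by_cases hk0 : k = 0
  · subst hk0
    have h0 := hroot 0
    have h1 := hroot 1
    have hlt : c 0 < c 1 := hc (by decide)
    have a0 : 0 < 1 + e * c 0 := by nlinarith
    have a1 : 1 + e * c 0 < 1 + e * c 1 := by nlinarith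
    have e1 := h0.1
    have e2 := h1.1
    have e3 : ((1 + e * c 0) * e) ^ 2 = ((1 + e * c 1) * e) ^ 2 := by nlinarith
    have e4 : (1 + e * c 0) * e < (1 + e * c 1) * e := by nlinarith
    have e5 : 0 < (1 + e * c 0) * e := by positivity
    nlinarith
  · have hk2 : 0 < k ^ 2 := by positivity
    have hv := (quartic_roots (a4 := e ^ 2 * k ^ 4) (a3 := 2 * e * k ^ 2 * (e ^ 2 + k ^ 2))
      (a2 := (e ^ 2 + k ^ 2) ^ 2 + 2 * e ^ 2 * k ^ 2 + κ ^ 2 * k ^ 2)
      (a1 := 2 * e * (e ^ 2 + k ^ 2)) (a0 := e ^ 2 - κ ^ 2) hc (fun i => by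
        linear_combination (hroot i).1)).1
    have b0 := (hroot 0).2.1
    have b1 := (hroot 1).2.1
    have b2 := (hroot 2).2.1
    have b3 := (hroot 3).2.1
    have hsum : -4 < c 0 + c 1 + c 2 + c 3 := by linarith
    -- e k² (e k² Σ + 2 (e² + k²)) = 0
    have h5 : e * k ^ 2 * (e * k ^ 2 * (c 0 + c 1 + c 2 + c 3) + 2 * (e ^ 2 + k ^ 2)) = 0 := by
      linear_combination hv
    have h6 := (mul_eq_zero.mp h5).resolve_left (by positivity)
    have h7 : e * k ^ 2 * (-4) < e * k ^ 2 * (c 0 + c 1 + c 2 + c 3) :=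
      mul_lt_mul_of_pos_left hsum (by positivity)
    have h8 : e ^ 2 + k ^ 2 < 2 * e * k ^ 2 := by linarith
    nlinarith [sq_nonneg (e - k ^ 2), mul_nonneg hk2.le (sub_nonneg.mpr hk)]

theorem Sol_k_zero (he0 : 0 < e) (he1 : e < 1) (hκ : 0 < κ) (hl : l ^ 2 ≤ 1) (hl0 : l ≠ 0) :
    (Sol e κ 0 l).encard ≤ 3 := by
  refine chain_cos (fun θ h => h.1) fun c hc hcS => ?_
  have hl2 : 0 < l ^ 2 := by positivity
  have hroot : ∀ i, ((1 + e * c i) * (e * (1 - l ^ 2) - l ^ 2 * c i)) ^ 2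
      = κ ^ 2 * (1 - l ^ 2 + l ^ 2 * c i ^ 2) ∧ -1 < c i := by
    intro i
    obtain ⟨θ, ⟨h1, -, h3⟩, h4⟩ := hcS i
    have hs := sin_pos' h1
    have hsc := Real.sin_sq_add_cos_sq θ
    have hA : A e 0 l θ = sin θ * ((1 + e * c i) * (e * (1 - l ^ 2) - l ^ 2 * c i)) := by
      unfold A G g g1 W
      rw [h4] at hsc ⊢
      linear_combination (-e * (1 + e * c i) * sin θ * l ^ 2) * hsc
    have hGe : G 0 l θ = 1 - l ^ 2 + l ^ 2 * c i ^ 2 := by
      unfold G g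
      rw [h4] at hsc ⊢
      linear_combination (-l ^ 2) * hsc
    rw [hA, hGe] at h3
    refine ⟨?_, ?_⟩
    · have : sin θ ^ 2 * (((1 + e * c i) * (e * (1 - l ^ 2) - l ^ 2 * c i)) ^ 2
          - κ ^ 2 * (1 - l ^ 2 + l ^ 2 * c i ^ 2)) = 0 := by
        linear_combination h3
      have := (mul_eq_zero.mp this).resolve_left (by positivity)
      linarith
    · rw [← h4]; nlinarith [sq_nonneg (cos θ), hs, mul_pos hs hs]
  have hv := (quartic_roots (a4 := e ^ 2 * l ^ 4)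
    (a3 := -(2 * e * l ^ 2 * (e ^ 2 * (1 - l ^ 2) - l ^ 2)))
    (a2 := (e ^ 2 * (1 - l ^ 2) - l ^ 2) ^ 2 - 2 * e ^ 2 * l ^ 2 * (1 - l ^ 2) - κ ^ 2 * l ^ 2)
    (a1 := 2 * (e * (1 - l ^ 2)) * (e ^ 2 * (1 - l ^ 2) - l ^ 2))
    (a0 := (e * (1 - l ^ 2)) ^ 2 - κ ^ 2 * (1 - l ^ 2)) hc (fun i => by
      linear_combination (hroot i).1)).2 (-1 / e)
  have hval : e ^ 2 * l ^ 4 * (-1 / e) ^ 4 + -(2 * e * l ^ 2 * (e ^ 2 * (1 - l ^ 2) - l ^ 2)) * (-1 / e) ^ 3
      + ((e ^ 2 * (1 - l ^ 2) - l ^ 2) ^ 2 - 2 * e ^ 2 * l ^ 2 * (1 - l ^ 2) - κ ^ 2 * l ^ 2) * (-1 / e) ^ 2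
      + 2 * (e * (1 - l ^ 2)) * (e ^ 2 * (1 - l ^ 2) - l ^ 2) * (-1 / e)
      + ((e * (1 - l ^ 2)) ^ 2 - κ ^ 2 * (1 - l ^ 2))
      = -(κ ^ 2 * (1 - l ^ 2 + l ^ 2 * (1 / e) ^ 2)) := by
    field_simp
    ring
  rw [hval] at hv
  have hneg : ∀ i, -1 / e - c i < 0 := by
    intro i
    have := (hroot i).2
    have h1 : -1 / e < -1 := by
      rw [div_lt_iff₀ he0]; linarith
    linarith
  have hprod : 0 < (-1 / e - c 0) * (-1 / e - c 1) * (-1 / e - c 2) * (-1 / e - c 3) := by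
    have h1 := mul_pos_of_neg_of_neg (hneg 0) (hneg 1)
    have h2 := mul_pos_of_neg_of_neg (hneg 2) (hneg 3)
    have := mul_pos h1 h2
    linarith
  have h1 : 0 < κ ^ 2 * (1 - l ^ 2 + l ^ 2 * (1 / e) ^ 2) := by
    have : 0 < 1 - l ^ 2 + l ^ 2 * (1 / e) ^ 2 := by
      have : 0 < l ^ 2 * (1 / e) ^ 2 := by positivity
      linarith
    positivity
  have h2 : 0 < e ^ 2 * l ^ 4 * ((-1 / e - c 0) * (-1 / e - c 1) * (-1 / e - c 2) * (-1 / e - c 3)) := by
    have : 0 < l ^ 4 := by positivity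
    positivity
  linarith

theorem Sol_k_zero_one (he0 : 0 < e) (he1 : e < 1) (hκ : 0 < κ) (hl : l ^ 2 = 1) :
    (Sol e κ 0 l).encard ≤ 1 := by
  refine chain_cos (fun θ h => h.1) fun c hc hcS => ?_
  have hroot : ∀ i, 1 + e * c i = κ := by
    intro i
    obtain ⟨θ, ⟨h1, h2, h3⟩, h4⟩ := hcS i
    have hs := sin_pos' h1
    have hsc := Real.sin_sq_add_cos_sq θ
    have hA : A e 0 l θ = -(sin θ * ((1 + e * c i) * c i)) := by
      unfold A G g g1 W
      rw [h4] at hsc ⊢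
      linear_combination (-e * (1 + e * c i) * sin θ * l ^ 2) * hsc + (e * sin θ * (1 + e * c i) * c i ^ 2 - e * sin θ * (1 + e * c i) - (1 + e * c i) ^ 2 * sin θ * c i) * hl
    have hGe : G 0 l θ = c i ^ 2 := by
      unfold G g
      rw [h4] at hsc ⊢
      linear_combination (-l ^ 2) * hsc + (c i ^ 2 - 1) * hl
    rw [hA, hGe] at h3
    rw [hGe] at h2
    have h5 : (sin θ ^ 2 * c i ^ 2) * ((1 + e * c i) ^ 2 - κ ^ 2) = 0 := by
      linear_combination h3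
    have h6 := (mul_eq_zero.mp h5).resolve_left (by positivity)
    have h7 : 0 < 1 + e * c i := by
      rw [← h4]; exact W_pos he0 he1 θ
    have h8 : (1 + e * c i - κ) * (1 + e * c i + κ) = 0 := by linear_combination h6
    have := (mul_eq_zero.mp h8).resolve_right (by positivity)
    linarith
  have h0 := hroot 0
  have h1 := hroot 1
  have hlt : c 0 < c 1 := hc (by decide)
  nlinarith

end Pool.Agent.Y658.CE
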